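import Pool.Agent.Helper824_pc.Low

/-!
Positive operators which are bounded below do not lower the rank.
-/

namespace Pool.Agent.H824PC

open Topology Filter Set

universe u

section
variable {K L : Type u} [TopologicalSpace K] [TopologicalSpace L] [CompactSpace K] [T2Space K]
  [Countable K] [CompactSpace L] [T2Space L]

/-- the representing measure at `y` has an atom of mass at least `c` at `x` -/
def Atom (T : C(K, ℝ) →ₗ[ℝ] C(L, ℝ)) (c : ℝ) (x : K) (y : L) : Prop :=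
  ∀ V (hV : IsClopen V), x ∈ V → c ≤ T (ind V hV) y

omit [CompactSpace K] [T2Space K] [Countable K] [CompactSpace L] [T2Space L] in
lemma pos_mono {T : C(K, ℝ) →ₗ[ℝ] C(L, ℝ)} (hT : ∀ f, 0 ≤ f → 0 ≤ T f) {f g : C(K, ℝ)}
    (hfg : ∀ x, f x ≤ g x) (y : L) : T f y ≤ T g y := by
  have h1 : 0 ≤ g - f := by
    intro x
    show (0 : ℝ) ≤ g x - f x
    linarith [hfg x]
  have h2 := hT _ h1 y
  rw [map_sub] at h2
  have h3 : (0 : ℝ) ≤ T g y - T f y := h2
  linarith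

omit [CompactSpace K] [T2Space K] [Countable K] [CompactSpace L] [T2Space L] in
lemma ind_mono {V W : Set K} (hV : IsClopen V) (hW : IsClopen W) (h : V ⊆ W) (x : K) :
    ind V hV x ≤ ind W hW x := by
  by_cases hx : x ∈ V
  · rw [ind_of_mem hx, ind_of_mem (h hx)]
  · rw [ind_of_notMem hx]
    exact ind_nonneg W hW x

omit [CompactSpace K] [T2Space K] [Countable K] [CompactSpace L] [T2Space L] in
lemma atom_cpt {T : C(K, ℝ) →ₗ[ℝ] C(L, ℝ)} (hT : ∀ f, 0 ≤ f → 0 ≤ T f) {c : ℝ} {x : K}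
    {B : Set L} (hB : IsCompact B) (h : ∀ y ∈ B, ¬ Atom T c x y) :
    ∃ V, ∃ hV : IsClopen V, x ∈ V ∧ ∀ y ∈ B, T (ind V hV) y < c := by
  refine hB.induction_on
    (p := fun B => ∃ V, ∃ hV : IsClopen V, x ∈ V ∧ ∀ y ∈ B, T (ind V hV) y < c) ?_ ?_ ?_ ?_
  · exact ⟨univ, isClopen_univ, mem_univ x, fun y hy => absurd hy (notMem_empty y)⟩
  · rintro s t hst ⟨V, hV, hx, h⟩
    exact ⟨V, hV, hx, fun y hy => h y (hst hy)⟩
  · rintro s t ⟨V, hV, hx, h⟩ ⟨W, hW, hx', h'⟩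
    refine ⟨V ∩ W, hV.inter hW, ⟨hx, hx'⟩, ?_⟩
    rintro y (hy | hy)
    · exact (pos_mono hT (ind_mono _ hV inter_subset_left) y).trans_lt (h y hy)
    · exact (pos_mono hT (ind_mono _ hW inter_subset_right) y).trans_lt (h' y hy)
  · intro y hy
    have h1 := h y hy
    unfold Atom at h1
    push Not at h1
    obtain ⟨V, hV, hx, hlt⟩ := h1
    refine ⟨{z | T (ind V hV) z < c}, mem_nhdsWithin_of_mem_nhds
      ((isOpen_lt (T (ind V hV)).continuous continuous_const).mem_nhds hlt), V, hV, hx, ?_⟩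
    exact fun z hz => hz

omit [CompactSpace K] [T2Space K] [Countable K] [CompactSpace L] [T2Space L] in
lemma atom_near {T : C(K, ℝ) →ₗ[ℝ] C(L, ℝ)} (hT : ∀ f, 0 ≤ f → 0 ≤ T f) {c : ℝ} {x : K}
    {B : Set L} (hB : IsCompact B) (h : ∀ y ∈ B, ¬ Atom T c x y) :
    ∃ V, IsClopen V ∧ x ∈ V ∧ ∀ x' ∈ V, ∀ y ∈ B, ¬ Atom T c x' y := by
  obtain ⟨V, hV, hx, h1⟩ := atom_cpt hT hB h
  exact ⟨V, hV, hx, fun x' hx' y hy hat => absurd (hat V hV hx') (not_le.mpr (h1 y hy))⟩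

/-- each `y` has only finitely many atoms -/
lemma atom_fin {T : C(K, ℝ) →ₗ[ℝ] C(L, ℝ)} (hT : ∀ f, 0 ≤ f → 0 ≤ T f) {c : ℝ} (hc : 0 < c)
    (y : L) : {x | Atom T c x y}.Finite := by
  classical
  by_contra hinf
  have hinf : {x | Atom T c x y}.Infinite := hinf
  obtain ⟨M, hM⟩ := exists_nat_gt (T 1 y / c)
  obtain ⟨s, hs, hcard⟩ := hinf.exists_subset_card_eq M
  obtain ⟨U, hU, hUd⟩ := s.finite_toSet.t2_separation
  have hex : ∀ x : K, ∃ V, IsClopen V ∧ x ∈ V ∧ V ⊆ U x := fun x =>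
    compact_exists_isClopen_in_isOpen (hU x).2 (hU x).1
  choose V hV hxV hVU using hex
  have h1 : ∀ z, (∑ x ∈ s, ind (V x) (hV x)) z ≤ (1 : C(K, ℝ)) z := by
    intro z
    rw [ContinuousMap.sum_apply]
    show _ ≤ (1 : ℝ)
    by_cases hz : ∃ x ∈ s, z ∈ V x
    · obtain ⟨x, hx, hzx⟩ := hz
      rw [Finset.sum_eq_single x]
      · exact ind_le_one _ _ _
      · intro x' hx' hne
        apply ind_of_notMem
        intro hzx'
        have := hUd (Finset.mem_coe.mpr hx') (Finset.mem_coe.mpr hx) hne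
        exact Set.disjoint_left.mp this (hVU _ hzx') (hVU _ hzx)
      · intro h; exact absurd hx h
    · push Not at hz
      rw [Finset.sum_eq_zero (fun x hx => ind_of_notMem (hz x hx))]
      exact zero_le_one
  have h2 := pos_mono hT h1 y
  rw [map_sum, ContinuousMap.sum_apply] at h2
  have h3 : (M : ℝ) * c ≤ ∑ x ∈ s, T (ind (V x) (hV x)) y := by
    rw [← hcard, ← nsmul_eq_mul]
    exact Finset.card_nsmul_le_sum _ _ _ (fun x hx => (hs hx) _ (hV x) (hxV x))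
  rw [div_lt_iff₀ hc] at hM
  linarith

/-- every `x` is an atom at some `y` -/
lemma atom_ex {T : C(K, ℝ) →ₗ[ℝ] C(L, ℝ)} (hT : ∀ f, 0 ≤ f → 0 ≤ T f) {c : ℝ} (hc : 0 < c)
    (hb : ∀ f, c * ‖f‖ ≤ ‖T f‖) (x : K) : ∃ y, Atom T c x y := by
  by_contra hcon
  push Not at hcon
  obtain ⟨V, hV, hxV, h1⟩ := atom_cpt hT (isCompact_univ (X := L)) (fun y _ => hcon y)
  have h2 : ‖T (ind V hV)‖ < c := by
    rw [ContinuousMap.norm_lt_iff _ hc]
    intro y
    have h0 : 0 ≤ T (ind V hV) y := hT _ (fun z => ind_nonneg V hV z) y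
    rw [Real.norm_eq_abs, abs_of_nonneg h0]
    exact h1 y (mem_univ y)
  have h3 : 1 ≤ ‖ind V hV‖ := by
    have := (ind V hV).norm_coe_le_norm x
    rwa [ind_of_mem hxV, norm_one] at this
  have h4 := hb (ind V hV)
  nlinarith

theorem rank_le {T : C(K, ℝ) →ₗ[ℝ] C(L, ℝ)} (hT : ∀ f, 0 ≤ f → 0 ≤ T f) {c : ℝ} (hc : 0 < c)
    (hb : ∀ f, c * ‖f‖ ≤ ‖T f‖) {ρ : K → Ordinal.{u}} (hρ2 : R2 ρ) {σ : L → Ordinal.{u}}
    (hσ1 : R1 σ) (ξ : Ordinal.{u}) : ∀ x, ξ ≤ ρ x → ∃ y, Atom T c x y ∧ ξ ≤ σ y := by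
  induction ξ using WellFoundedLT.induction with
  | ind ξ ih =>
  intro x hx
  by_contra hcon
  push Not at hcon
  -- the set of `y` at which `x` is an atom
  set G : Set L := {y | Atom T c x y} with hG
  have hGc : IsClosed G := by
    have : G = ⋂ V, ⋂ (hV : IsClopen V), ⋂ (_ : x ∈ V), {y | c ≤ T (ind V hV) y} := by
      ext y
      simp only [hG, mem_iInter]
      rfl
    rw [this]
    exact isClosed_iInter fun V => isClosed_iInter fun hV => isClosed_iInter fun _ =>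
      isClosed_le continuous_const (T (ind V hV)).continuous
  obtain ⟨y0, hy0⟩ := atom_ex hT hc hb x
  obtain ⟨y1, hy1, hmax⟩ := exists_max hGc.isCompact ⟨y0, hy0⟩ σ (fun y _ => by
    filter_upwards [hσ1.nhds y] with z hz _ hzy
    exact hz hzy)
  set η := σ y1 with hη
  have hηξ : η < ξ := hcon y1 hy1
  have hsucc : ξ = Order.succ η := by
    apply le_antisymm _ (Order.succ_le_of_lt hηξ)
    by_contra hlt
    push Not at hlt
    obtain ⟨y, hy, hy'⟩ := ih _ hlt x (hlt.le.trans hx)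
    exact absurd (hmax y hy) (not_le.mpr (Order.succ_le_iff.mp hy'))
  have hηx : η < ρ x := hηξ.trans_le hx
  -- the closed set of points of rank ≥ η outside G
  set B : Set L := {y | η ≤ σ y ∧ y ∉ G} with hBdef
  have hBc : IsClosed B := by
    rw [← isOpen_compl_iff, isOpen_iff_mem_nhds]
    intro y hy
    by_cases hyη : η ≤ σ y
    · have hyG : y ∈ G := by
        by_contra hh
        exact hy ⟨hyη, hh⟩
      have hyη' : σ y = η := le_antisymm (hmax y hyG) hyη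
      filter_upwards [hσ1.nhds y] with z hz hzB
      by_cases hzy : z = y
      · rw [hzy] at hzB
        exact hzB.2 hyG
      · have := hz hzy
        rw [hyη'] at this
        exact absurd hzB.1 (not_le.mpr this)
    · filter_upwards [(hσ1.isOpen_lt η).mem_nhds (not_le.mp hyη)] with z hz hzB
      exact absurd hzB.1 (not_le.mpr hz)
  obtain ⟨V, hV, hxV, hVB⟩ := atom_near hT hBc.isCompact (x := x) (fun y hy => hy.2)
  set H : Set L := {y | y ∈ G ∧ η ≤ σ y} with hH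
  have hHc : IsClosed H := hGc.inter (hσ1.isClosed_ge η)
  have hHfin : H.Finite := by
    apply finite_of_isolated hHc.isCompact
    intro y hy
    filter_upwards [hσ1.nhds y] with z hz hzH
    by_contra hzy
    have h1 := hz hzy
    have h2 := hmax y hy.1
    exact absurd (hzH.2.trans_lt h1) (not_lt.mpr h2)
  have hfin : (⋃ y ∈ H, {x' | Atom T c x' y}).Finite :=
    hHfin.biUnion fun y _ => atom_fin hT hc y
  have hsub : {x' | x' ∈ V ∧ ρ x' = η} ⊆ ⋃ y ∈ H, {x' | Atom T c x' y} := by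
    rintro x' ⟨hx'V, hx'⟩
    obtain ⟨y', hy', hy'σ⟩ := ih η hηξ x' hx'.ge
    have h1 : y' ∉ B := fun hh => hVB x' hx'V y' hh hy'
    have h2 : y' ∈ H := by
      refine ⟨?_, hy'σ⟩
      by_contra hh
      exact h1 ⟨hy'σ, hh⟩
    simp only [mem_iUnion]
    exact ⟨y', h2, hy'⟩
  have hfin2 := hfin.subset hsub
  have hxnot : x ∉ {x' | x' ∈ V ∧ ρ x' = η} := by
    rintro ⟨-, h⟩
    rw [h] at hηx
    exact lt_irrefl _ hηx
  obtain ⟨z, ⟨hzV, hz1⟩, hz2⟩ := hρ2 x η hηx (V ∩ {x' | x' ∈ V ∧ ρ x' = η}ᶜ)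
    (inter_mem (hV.isOpen.mem_nhds hxV) (hfin2.isClosed.isOpen_compl.mem_nhds hxnot))
  exact hz1 ⟨hzV, hz2⟩

end

end Pool.Agent.H824PC
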