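import Pool.Agent.Helper824_pc.Cones
import Pool.Agent.Helper824_pc.Pos

/-!
Assembly.
-/

namespace Pool.Agent.H824PC

open Topology Filter Set

universe u

section
variable {K : Type u} [TopologicalSpace K] [CompactSpace K] [T2Space K] [Countable K]

omit [T2Space K] [Countable K] in
lemma clopen_compact {C : Set K} (hC : IsClopen C) : CompactSpace C :=
  isCompact_iff_compactSpace.mp hC.isClosed.isCompact

/-- a clopen neighbourhood on which the point has maximal rank is a cone -/
lemma cone_of_nb {ρ : K → Ordinal.{u}} (h1 : R1 ρ) (h2 : R2 ρ) {C : Set K} (hC : IsClopen C)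
    {x : K} (hx : x ∈ C) (h : ∀ y ∈ C, y ≠ x → ρ y < ρ x) :
    Cone C (fun y : C => ρ y) ⟨x, hx⟩ (ρ x) where
  r1 := h1.subtype C
  r2 := h2.subtype hC.isOpen
  top := rfl
  lt := fun y hy => h y y.2 (fun hh => hy (Subtype.ext hh))

/-- splitting along a clopen set -/
lemma split_clopen {C : Set K} (hC : IsClopen C) :
    Nonempty ((C ⊕ (Cᶜ : Set K)) ≃ₜ K) := by
  classical
  have := clopen_compact hC
  have := clopen_compact hC.compl
  have hcont : Continuous (Equiv.Set.sumCompl C) := by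
    rw [continuous_sum_dom]
    constructor
    · exact continuous_subtype_val
    · exact continuous_subtype_val
  exact ⟨hcont.homeoOfEquivCompactToT2⟩

end

/-- spaces of the same rank -/
lemma reduce (γ : Ordinal.{u}) (hγ : γ ≠ 0) (n : ℕ) : ∀ (K : Type u) [TopologicalSpace K]
    [CompactSpace K] [T2Space K] [Countable K] (ρ : K → Ordinal.{u}), R1 ρ → R2 ρ →
    (∀ x, ρ x ≤ γ) → {x | ρ x = γ}.Finite → {x | ρ x = γ}.ncard = n + 1 →
    ∀ (S : Type u) [TopologicalSpace S] [CompactSpace S] [T2Space S] [Countable S]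
      (τ : S → Ordinal.{u}) (t : S), Cone S τ t γ → PosP K S ∧ PosP S K := by
  induction n with
  | zero =>
    intro K _ _ _ _ ρ h1 h2 hle hfin hcard S _ _ _ _ τ t hS
    rw [zero_add, ncard_eq_one] at hcard
    obtain ⟨x0, hx0⟩ := hcard
    have hx0' : ρ x0 = γ := by
      have : x0 ∈ {x | ρ x = γ} := by rw [hx0]; rfl
      exact this
    have hK : Cone K ρ x0 γ := by
      refine ⟨h1, h2, hx0', fun x hx => lt_of_le_of_ne (hle x) (fun hh => hx ?_)⟩
      have : x ∈ {x | ρ x = γ} := hh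
      rw [hx0] at this
      exact this
    exact ⟨hK.homeo hS, hS.homeo hK⟩
  | succ n ih =>
    intro K _ _ _ _ ρ h1 h2 hle hfin hcard S _ _ _ _ τ t hS
    have hne : {x | ρ x = γ}.Nonempty := by
      rw [← ncard_pos hfin, hcard]; omega
    obtain ⟨x0, hx0⟩ := hne
    have hx0' : ρ x0 = γ := hx0
    obtain ⟨C, hC, hxC, -, hCρ⟩ := exists_nb h1 isOpen_univ (mem_univ x0)
    have := clopen_compact hC
    have := clopen_compact hC.compl
    have hcone : Cone C (fun y : C => ρ y) ⟨x0, hxC⟩ γ := by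
      rw [← hx0']; exact cone_of_nb h1 h2 hC hxC hCρ
    have hval : Subtype.val '' {x : (Cᶜ : Set K) | ρ x = γ} = {x | ρ x = γ} \ {x0} := by
      ext y
      constructor
      · rintro ⟨z, hz, rfl⟩
        refine ⟨hz, fun hh => z.2 ?_⟩
        rw [mem_singleton_iff] at hh
        rw [hh]; exact hxC
      · rintro ⟨hy, hy'⟩
        have hyC : y ∉ C := by
          intro hh
          have := hCρ y hh hy'
          rw [hx0', show ρ y = γ from hy] at this
          exact lt_irrefl _ this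
        exact ⟨⟨y, hyC⟩, hy, rfl⟩
    have hfin' : {x : (Cᶜ : Set K) | ρ x = γ}.Finite := by
      apply Finite.of_finite_image _ Subtype.val_injective.injOn
      rw [hval]
      exact hfin.sdiff
    have hcard' : {x : (Cᶜ : Set K) | ρ x = γ}.ncard = n + 1 := by
      rw [← ncard_image_of_injective _ Subtype.val_injective, hval,
        ncard_sdiff_singleton_of_mem hx0, hcard]
      rfl
    obtain ⟨g1, g2⟩ := ih (Cᶜ : Set K) (fun y => ρ y) (h1.subtype _) (h2.subtype hC.compl.isOpen)
      (fun x => hle x) hfin' hcard' C (fun y => ρ y) ⟨x0, hxC⟩ hcone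
    obtain ⟨e⟩ := split_clopen hC
    have e1 : PosP (C ⊕ (Cᶜ : Set K)) K := PosP.of_homeo e
    have e2 : PosP K (C ⊕ (Cᶜ : Set K)) := PosP.of_homeo e.symm
    refine ⟨?_, ?_⟩
    · exact e2.trans ((PosP.refl.sum g1).trans ((hcone.two_one hγ).trans (hcone.homeo hS)))
    · exact (hS.homeo hcone).trans ((hcone.one_two hγ).trans ((PosP.refl.sum g2).trans e1))

/-- raising the rank step by step -/
lemma chain {S : Type u} [TopologicalSpace S] [CompactSpace S] [T2Space S] [Countable S]
    {τ : S → Ordinal.{u}} {t : S} {γ : Ordinal.{u}} (hS : Cone S τ t γ) (k : ℕ) :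
    ∀ (S' : Type u) [TopologicalSpace S'] [CompactSpace S'] [T2Space S'] [Countable S']
      (σ : S' → Ordinal.{u}) (t' : S') (δ : Ordinal.{u}), Cone S' σ t' δ → γ ≤ δ →
      δ ≤ γ * (k + 1 : ℕ) → PosP S S' := by
  induction k with
  | zero =>
    intro S' _ _ _ _ σ t' δ hS' h1 h2
    rw [zero_add, Nat.cast_one, mul_one] at h2
    have h3 : δ = γ := le_antisymm h2 h1
    rw [h3] at hS'
    exact hS.homeo hS'
  | succ k ih =>
    intro S' _ _ _ _ σ t' δ hS' h1 h2
    by_cases h3 : δ ≤ γ * (k + 1 : ℕ)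
    · exact ih S' σ t' δ hS' h1 h3
    push Not at h3
    set δ' := γ * (k + 1 : ℕ) with hδ'
    have hγδ' : γ ≤ δ' := by
      conv_lhs => rw [← mul_one γ]
      rw [hδ']
      gcongr
      exact_mod_cast Nat.succ_le_succ (Nat.zero_le k)
    have h4 : δ ≤ δ' + γ := by
      rw [Nat.cast_add (k + 1) 1, Nat.cast_one, mul_add, mul_one] at h2
      exact h2
    obtain ⟨y, -, hy⟩ := hS'.r2 t' δ' (by rw [hS'.top]; exact h3) univ univ_mem
    obtain ⟨C, hC, hyC, -, hCσ⟩ := exists_nb hS'.r1 isOpen_univ (mem_univ y)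
    have := clopen_compact hC
    have hcone : Cone C (fun y : C => σ y) ⟨y, hyC⟩ δ' := by
      rw [← hy]; exact cone_of_nb hS'.r1 hS'.r2 hC hyC hCσ
    have h5 : PosP S C := ih C _ _ δ' hcone hγδ' le_rfl
    have h6 : δ - δ' ≤ δ' := by
      refine le_trans ?_ hγδ'
      rw [Ordinal.sub_le]
      exact h4
    have h7 : Cone S' σ t' (δ' + (δ - δ')) := by
      rw [Ordinal.add_sub_cancel_of_le h3.le]
      exact hS'
    exact h5.trans (hcone.up h7 h6)

section
variable {K L : Type u} [TopologicalSpace K] [CompactSpace K] [T2Space K] [Countable K]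
  [TopologicalSpace L] [CompactSpace L] [T2Space L] [Countable L]

omit [CompactSpace K] [Countable K] in
/-- on a finite space every functional is a combination of evaluations -/
lemma finite_Lc [Finite K] (φ : Module.Dual ℝ C(K, ℝ)) : φ ∈ Lc K := by
  classical
  cases nonempty_fintype K
  have hcl : ∀ x : K, IsClopen ({x} : Set K) := fun x =>
    ⟨isClosed_singleton, isOpen_discrete _⟩
  have : φ = ∑ x : K, φ (ind {x} (hcl x)) • ev K x := by
    ext f
    rw [LinearMap.sum_apply]
    have h1 : f = ∑ x : K, f x • ind {x} (hcl x) := by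
      ext z
      rw [ContinuousMap.sum_apply, Finset.sum_eq_single z]
      · rw [ContinuousMap.smul_apply, ind_of_mem (mem_singleton z)]; simp
      · intro x _ hx
        rw [ContinuousMap.smul_apply, ind_of_notMem (by simpa using hx.symm)]; simp
      · simp
    conv_lhs => rw [h1]
    rw [map_sum]
    apply Finset.sum_congr rfl
    intro x _
    rw [map_smul, LinearMap.smul_apply, ev_apply, smul_eq_mul, smul_eq_mul, mul_comm]
  rw [this]
  exact Submodule.sum_mem _ fun x _ => Submodule.smul_mem _ _ (ev_mem x)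

open Ordinal in
/-- a positive isomorphism gives a positive `p`-homeomorphism -/
theorem main_dir (T : C(K, ℝ) ≃ₗ[ℝ] C(L, ℝ)) (hT : ∀ f, 0 ≤ f → 0 ≤ T f)
    (hTc : Continuous T) (hTs : Continuous T.symm) : PosP K L := by
  obtain ⟨ρ, hρ1, hρ2⟩ := exists_rank (X := K)
  obtain ⟨σ, hσ1, hσ2⟩ := exists_rank (X := L)
  -- the inverse as a bounded operator
  let S : C(L, ℝ) →L[ℝ] C(K, ℝ) := ⟨T.symm.toLinearMap, hTs⟩
  have hS : ∀ g, S g = T.symm g := fun g => rfl
  -- lower bound
  have lower : ∀ α : Ordinal.{u}, (∀ x, ρ x < ω ^ α) → ∀ y, σ y < ω ^ α := by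
    intro α hα y
    by_contra hy
    push Not at hy
    obtain ⟨f, ⟨z, hz⟩, hf⟩ := low S hσ2 hρ1 hα hy (ε := 1 / (2 * (‖(⟨T.toLinearMap, hTc⟩ :
      C(K, ℝ) →L[ℝ] C(L, ℝ))‖ + 1))) (by positivity)
    set Tc : C(K, ℝ) →L[ℝ] C(L, ℝ) := ⟨T.toLinearMap, hTc⟩ with hTcdef
    have h1 : ‖S f‖ ≤ 1 / (2 * (‖Tc‖ + 1)) := by
      rw [ContinuousMap.norm_le _ (by positivity)]
      exact hf
    have h2 : Tc (S f) = f := T.apply_symm_apply f
    have h3 : ‖f‖ ≤ ‖Tc‖ * ‖S f‖ := by
      conv_lhs => rw [← h2]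
      exact Tc.le_opNorm _
    have h4 : 1 ≤ ‖f‖ := by
      have := f.norm_coe_le_norm z
      rwa [hz, norm_one] at this
    have h5 : ‖Tc‖ * ‖S f‖ ≤ (‖Tc‖ + 1) * (1 / (2 * (‖Tc‖ + 1))) := by
      apply mul_le_mul _ h1 (norm_nonneg _) (by positivity)
      linarith
    have h6 : (‖Tc‖ + 1) * (1 / (2 * (‖Tc‖ + 1))) = 1 / 2 := by
      field_simp
    linarith
  -- bounded below
  have hb : ∀ f, (1 / (‖S‖ + 1)) * ‖f‖ ≤ ‖T.toLinearMap f‖ := by
    intro f
    have h1 : ‖f‖ ≤ ‖S‖ * ‖T f‖ := by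
      have h2 : S (T f) = f := T.symm_apply_apply f
      conv_lhs => rw [← h2]
      exact S.le_opNorm _
    have h3 : ‖f‖ ≤ (‖S‖ + 1) * ‖T f‖ := by
      have := norm_nonneg (T f)
      linarith
    rw [one_div, inv_mul_le_iff₀ (by positivity)]
    exact h3
  have rank := rank_le (T := T.toLinearMap) hT (c := 1 / (‖S‖ + 1)) (by positivity) hb hρ2 hσ1
  rcases isEmpty_or_nonempty L with hL | hL
  · -- L empty: then K is empty as well
    have hK : IsEmpty K := by
      by_contra hK
      rw [not_isEmpty_iff] at hK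
      obtain ⟨x⟩ := hK
      obtain ⟨y, -⟩ := rank 0 x (zero_le)
      exact hL.false y
    exact ⟨T, hT, fun y => (hL.false y).elim, fun x => (hK.false x).elim⟩
  rcases isEmpty_or_nonempty K with hK | hK
  · exfalso
    obtain ⟨y⟩ := hL
    have h1 : (1 : C(L, ℝ)) = 0 := by
      have h2 : T.symm 1 = T.symm 0 := by
        ext x
        exact (hK.false x).elim
      exact T.symm.injective h2
    have h3 := congrArg (fun f : C(L, ℝ) => f y) h1
    simp at h3
  -- maxima
  obtain ⟨x0, -, hx0⟩ := exists_max (isCompact_univ (X := K)) univ_nonempty ρ (fun x _ => by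
    filter_upwards [hρ1.nhds x] with y hy _ hyx
    exact hy hyx)
  obtain ⟨y0, -, hy0⟩ := exists_max (isCompact_univ (X := L)) univ_nonempty σ (fun x _ => by
    filter_upwards [hσ1.nhds x] with y hy _ hyx
    exact hy hyx)
  have fin : ∀ {X : Type u} [TopologicalSpace X] [CompactSpace X] (θ : X → Ordinal.{u}), R1 θ →
      ∀ β, (∀ x, θ x ≤ β) → {x | θ x = β}.Finite := by
    intro X _ _ θ hθ β hβ
    have hcl : IsClosed {x | θ x = β} := by
      have : {x | θ x = β} = {x | β ≤ θ x} := by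
        ext x
        exact ⟨fun h => h.ge, fun h => le_antisymm (hβ x) h⟩
      rw [this]
      exact hθ.isClosed_ge β
    apply finite_of_isolated hcl.isCompact
    intro x hx
    filter_upwards [hθ.nhds x] with y hy hyβ
    by_contra hyx
    have := hy hyx
    rw [show θ y = β from hyβ, show θ x = β from hx] at this
    exact lt_irrefl _ this
  by_cases hγ : ρ x0 = 0
  · -- finite spaces
    have hK0 : ∀ x, ρ x = 0 := fun x => by
      have := hx0 x (mem_univ x)
      rw [hγ] at this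
      exact le_antisymm this (zero_le)
    have hL0 : ∀ y, σ y = 0 := by
      intro y
      have := lower 0 (fun x => by rw [hK0 x, opow_zero]; exact zero_lt_one) y
      rw [opow_zero, Order.lt_one_iff] at this
      exact this
    have hKf : Finite K := by
      have := fin ρ hρ1 0 (fun x => (hK0 x).le)
      have h2 : {x | ρ x = 0} = Set.univ := eq_univ_of_forall hK0
      rw [h2] at this
      exact finite_univ_iff.mp this
    have hLf : Finite L := by
      have := fin σ hσ1 0 (fun x => (hL0 x).le)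
      have h2 : {x | σ x = 0} = Set.univ := eq_univ_of_forall hL0
      rw [h2] at this
      exact finite_univ_iff.mp this
    exact ⟨T, hT, fun y => finite_Lc _, fun x => finite_Lc _⟩
  -- infinite spaces
  set γ := ρ x0 with hγdef
  set δ := σ y0 with hδdef
  have hγδ : γ ≤ δ := by
    obtain ⟨y, -, hy⟩ := rank γ x0 le_rfl
    exact hy.trans (hy0 y (mem_univ y))
  have hδ0 : δ ≠ 0 := fun hh => hγ (le_antisymm (hh ▸ hγδ) (zero_le))
  have hk : ∃ k : ℕ, δ ≤ γ * (k + 1 : ℕ) := by
    set α := log ω γ with hα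
    have h1 : ω ^ α ≤ γ := opow_log_le_self _ hγ
    have h2 : γ < ω ^ Order.succ α := lt_opow_succ_log_self one_lt_omega0 γ
    have h3 := lower (Order.succ α) (fun x => (hx0 x (mem_univ x)).trans_lt h2) y0
    rw [lt_omega0_opow_succ] at h3
    obtain ⟨k, hk⟩ := h3
    refine ⟨k, hk.le.trans ?_⟩
    calc ω ^ α * (k : Ordinal.{u}) ≤ γ * k := by gcongr
      _ ≤ γ * (k + 1 : ℕ) := by
        gcongr
        exact_mod_cast Nat.le_succ k
  obtain ⟨k, hk⟩ := hk
  -- cones
  obtain ⟨C, hC, hxC, -, hCρ⟩ := exists_nb hρ1 isOpen_univ (mem_univ x0)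
  obtain ⟨E, hE, hyE, -, hEσ⟩ := exists_nb hσ1 isOpen_univ (mem_univ y0)
  have := clopen_compact hC
  have := clopen_compact hE
  have hCcone : Cone C (fun y : C => ρ y) ⟨x0, hxC⟩ γ := cone_of_nb hρ1 hρ2 hC hxC hCρ
  have hEcone : Cone E (fun y : E => σ y) ⟨y0, hyE⟩ δ := cone_of_nb hσ1 hσ2 hE hyE hEσ
  have hKfin := fin ρ hρ1 γ (fun x => hx0 x (mem_univ x))
  have hLfin := fin σ hσ1 δ (fun x => hy0 x (mem_univ x))
  have hKn : ∃ n : ℕ, {x | ρ x = γ}.ncard = n + 1 :=
    Nat.exists_eq_succ_of_ne_zero (ncard_ne_zero_of_mem (a := x0) rfl hKfin)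
  have hLn : ∃ n : ℕ, {x | σ x = δ}.ncard = n + 1 :=
    Nat.exists_eq_succ_of_ne_zero (ncard_ne_zero_of_mem (a := y0) rfl hLfin)
  obtain ⟨n, hn⟩ := hKn
  obtain ⟨m, hm⟩ := hLn
  have s1 : PosP K C := (reduce γ hγ n K ρ hρ1 hρ2 (fun x => hx0 x (mem_univ x)) hKfin hn C _ _
    hCcone).1
  have s2 : PosP C E := chain hCcone k E _ _ δ hEcone hγδ hk
  have s3 : PosP E L := (reduce δ hδ0 m L σ hσ1 hσ2 (fun x => hy0 x (mem_univ x)) hLfin hm E _ _
    hEcone).2
  exact s1.trans (s2.trans s3)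

end

end Pool.Agent.H824PC
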