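import Mathlib

/-!
Rank functions (Cantor-Bendixson rank) on countable compact Hausdorff spaces.
-/

namespace Pool.Agent.H824PC

open Topology Filter Set

universe u

section
variable {X : Type u} [TopologicalSpace X]

/-- near `x` (but different from `x`) all ranks are smaller than the rank of `x` -/
def R1 (ρ : X → Ordinal.{u}) : Prop := ∀ x, ∀ᶠ y in 𝓝[≠] x, ρ y < ρ x

/-- every neighbourhood of `x` contains points of each rank smaller than that of `x` -/
def R2 (ρ : X → Ordinal.{u}) : Prop := ∀ x, ∀ ζ < ρ x, ∀ V ∈ 𝓝 x, ∃ y ∈ V, ρ y = ζ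

/-- iterated derived sets -/
noncomputable def D (X : Type u) [TopologicalSpace X] (ξ : Ordinal.{u}) : Set X :=
  {x | ∀ η, (h : η < ξ) → AccPt x (𝓟 (D X η))}
termination_by ξ

lemma mem_D {ξ : Ordinal.{u}} {x : X} : x ∈ D X ξ ↔ ∀ η < ξ, AccPt x (𝓟 (D X η)) := by
  rw [D]; rfl

lemma D_anti : Antitone (D X) := by
  intro a b hab x hx
  rw [mem_D] at hx ⊢
  exact fun η hη => hx η (hη.trans_le hab)

lemma D_closed [T1Space X] (ξ : Ordinal.{u}) : IsClosed (D X ξ) := by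
  have : D X ξ = ⋂ η, ⋂ (_ : η < ξ), derivedSet (D X η) := by
    ext x
    simp only [mem_D, mem_iInter, mem_derivedSet]
  rw [this]
  exact isClosed_iInter fun η => isClosed_iInter fun _ => isClosed_derivedSet _

lemma exists_notAcc [CompactSpace X] [T2Space X] [Countable X] (x : X) :
    ∃ ξ, ¬ AccPt x (𝓟 (D X ξ)) := by
  by_contra hcon
  push Not at hcon
  set P : Set X := ⋂ ξ, D X ξ with hP
  have hxP : x ∈ P := by
    rw [hP, mem_iInter]
    intro ξ
    rw [mem_D]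
    exact fun η _ => hcon η
  -- stabilisation
  have hex : ∀ y : X, ∃ ξ : Ordinal.{u}, y ∉ P → y ∉ D X ξ := by
    intro y
    by_cases hy : y ∈ P
    · exact ⟨0, fun h => absurd hy h⟩
    · rw [hP, mem_iInter] at hy
      push Not at hy
      obtain ⟨ξ, hξ⟩ := hy
      exact ⟨ξ, fun _ => hξ⟩
  choose f hf using hex
  set ξ0 : Ordinal.{u} := ⨆ y, f y with hξ0
  have hle : ∀ y, f y ≤ ξ0 := fun y => Ordinal.le_iSup f y
  have hD : D X ξ0 = P := by
    apply Subset.antisymm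
    · intro y hy
      by_contra hyP
      exact hf y hyP (D_anti (hle y) hy)
    · exact iInter_subset _ _
  have hacc : ∀ y ∈ P, AccPt y (𝓟 P) := by
    intro y hy
    have h1 : y ∈ D X (Order.succ ξ0) := by
      rw [hP, mem_iInter] at hy
      exact hy _
    rw [mem_D] at h1
    have := h1 ξ0 (Order.lt_succ ξ0)
    rwa [hD] at this
  have hclosed : IsClosed P := isClosed_iInter fun ξ => D_closed ξ
  have : CompactSpace P := isCompact_iff_compactSpace.mp hclosed.isCompact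
  have : Nonempty P := ⟨⟨x, hxP⟩⟩
  obtain ⟨p, hp⟩ := nonempty_interior_of_iUnion_of_closed (X := P) (ι := P)
    (f := fun p => {p}) (fun _ => isClosed_singleton) (by ext y; simp)
  obtain ⟨q, hq⟩ := hp
  have hq1 : q = p := by simpa using interior_subset hq
  subst hq1
  have hopen : IsOpen ({q} : Set P) := by
    rw [← interior_eq_iff_isOpen]
    apply Subset.antisymm interior_subset
    intro z hz
    rw [mem_singleton_iff] at hz
    rwa [hz]
  obtain ⟨U, hU, hUq⟩ := isOpen_induced_iff.mp hopen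
  have hqU : (q : X) ∈ U := by
    have : q ∈ (Subtype.val ⁻¹' U : Set P) := by rw [hUq]; rfl
    exact this
  have h2 := hacc q q.2
  rw [accPt_iff_nhds] at h2
  obtain ⟨z, ⟨hzU, hzP⟩, hzq⟩ := h2 U (hU.mem_nhds hqU)
  have : (⟨z, hzP⟩ : P) ∈ (Subtype.val ⁻¹' U : Set P) := hzU
  rw [hUq, mem_singleton_iff] at this
  exact hzq (by rw [← this])

/-- existence of the Cantor-Bendixson rank function -/
theorem exists_rank [CompactSpace X] [T2Space X] [Countable X] :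
    ∃ ρ : X → Ordinal.{u}, R1 ρ ∧ R2 ρ := by
  classical
  have key : ∀ x : X, ∃ ξ, ¬ AccPt x (𝓟 (D X ξ)) ∧ ∀ η < ξ, AccPt x (𝓟 (D X η)) := by
    intro x
    obtain ⟨ξ, h1, h2⟩ := WellFounded.has_min (wellFounded_lt (α := Ordinal.{u}))
      {ξ | ¬ AccPt x (𝓟 (D X ξ))} (exists_notAcc x)
    exact ⟨ξ, h1, fun η hη => by
      by_contra h
      exact h2 η h hη⟩
  choose ρ hρ1 hρ2 using key
  have hmem : ∀ x ξ, x ∈ D X ξ ↔ ξ ≤ ρ x := by
    intro x ξ
    constructor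
    · intro h
      by_contra hlt
      push Not at hlt
      rw [mem_D] at h
      exact hρ1 x (h _ hlt)
    · intro h
      rw [mem_D]
      exact fun η hη => hρ2 x η (hη.trans_le h)
  have hR1 : R1 ρ := by
    intro x
    have h := hρ1 x
    rw [accPt_iff_frequently, not_frequently] at h
    rw [eventually_nhdsWithin_iff]
    filter_upwards [h] with y hy hyx
    by_contra hlt
    push Not at hlt
    exact hy ⟨hyx, (hmem y _).mpr hlt⟩
  refine ⟨ρ, hR1, ?_⟩
  intro x ζ hζ V hV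
  obtain ⟨U, hUV, hU, hxU⟩ := mem_nhds_iff.mp hV
  -- the set of points of U of rank at least ζ
  have hne : {y | y ∈ U ∧ ζ ≤ ρ y}.Nonempty := ⟨x, hxU, hζ.le⟩
  obtain ⟨y, ⟨hyU, hζy⟩, hmin⟩ := WellFounded.has_min
    (InvImage.wf ρ (wellFounded_lt (α := Ordinal.{u}))) _ hne
  refine ⟨y, hUV hyU, ?_⟩
  by_contra hne'
  have hlt : ζ < ρ y := lt_of_le_of_ne hζy (Ne.symm hne')
  have hacc := hρ2 y ζ hlt
  rw [accPt_iff_frequently] at hacc
  have h1 := hR1 y
  rw [eventually_nhdsWithin_iff] at h1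
  obtain ⟨z, ⟨hzy, hzD⟩, hz1, hzU⟩ := (hacc.and_eventually (h1.and (hU.mem_nhds hyU))).exists
  exact hmin z ⟨hzU, (hmem z ζ).mp hzD⟩ (hz1 hzy)

lemma R1.nhds {ρ : X → Ordinal.{u}} (h : R1 ρ) (x : X) : ∀ᶠ y in 𝓝 x, y ≠ x → ρ y < ρ x :=
  eventually_nhdsWithin_iff.mp (h x)

lemma R1.le {ρ : X → Ordinal.{u}} (h : R1 ρ) (x : X) : ∀ᶠ y in 𝓝 x, ρ y ≤ ρ x := by
  filter_upwards [h.nhds x] with y hy
  by_cases hyx : y = x
  · rw [hyx]
  · exact (hy hyx).le

lemma R1.isOpen_lt {ρ : X → Ordinal.{u}} (h : R1 ρ) (β : Ordinal.{u}) : IsOpen {x | ρ x < β} := by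
  rw [isOpen_iff_mem_nhds]
  intro x hx
  filter_upwards [h.le x] with y hy
  exact hy.trans_lt hx

lemma R1.isClosed_ge {ρ : X → Ordinal.{u}} (h : R1 ρ) (β : Ordinal.{u}) :
    IsClosed {x | β ≤ ρ x} := by
  rw [← isOpen_compl_iff]
  convert h.isOpen_lt β using 1
  ext x
  simp

lemma R1.subtype {ρ : X → Ordinal.{u}} (h : R1 ρ) (A : Set X) :
    R1 (fun x : A => ρ x) := by
  intro x
  have h1 := h.nhds x
  rw [eventually_nhdsWithin_iff]
  have h2 : Tendsto (Subtype.val : A → X) (𝓝 x) (𝓝 (x : X)) := continuousAt_subtype_val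
  filter_upwards [h2.eventually h1] with y hy hyx
  exact hy (fun hh => hyx (Subtype.ext hh))

lemma R2.subtype {ρ : X → Ordinal.{u}} (h : R2 ρ) {A : Set X} (hA : IsOpen A) :
    R2 (fun x : A => ρ x) := by
  intro x ζ hζ V hV
  rw [mem_nhds_subtype] at hV
  obtain ⟨W, hW, hWV⟩ := hV
  obtain ⟨y, ⟨hyW, hyA⟩, hy⟩ := h x ζ hζ (W ∩ A) (inter_mem hW (hA.mem_nhds x.2))
  exact ⟨⟨y, hyA⟩, hWV hyW, hy⟩

lemma R1.sub {ρ : X → Ordinal.{u}} (h : R1 ρ) (γ : Ordinal.{u}) :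
    R1 (fun x : {x | γ ≤ ρ x} => ρ x - γ) := by
  intro x
  filter_upwards [h.subtype {x | γ ≤ ρ x} x] with y hy
  have hx := x.2
  have hy' := y.2
  replace hx : γ ≤ ρ x := hx
  replace hy' : γ ≤ ρ y := hy'
  rw [← add_lt_add_iff_left γ, Ordinal.add_sub_cancel_of_le hy',
    Ordinal.add_sub_cancel_of_le hx]
  exact hy

lemma R2.sub {ρ : X → Ordinal.{u}} (h : R2 ρ) (γ : Ordinal.{u}) :
    R2 (fun x : {x | γ ≤ ρ x} => ρ x - γ) := by
  intro x ζ hζ V hV
  rw [mem_nhds_subtype] at hV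
  obtain ⟨W, hW, hWV⟩ := hV
  have hx : γ ≤ ρ x := x.2
  have h1 : γ + ζ < ρ x := by
    rw [← Ordinal.add_sub_cancel_of_le hx]
    exact (add_lt_add_iff_left γ).mpr hζ
  obtain ⟨y, hyW, hy⟩ := h x (γ + ζ) h1 W hW
  have hyA : γ ≤ ρ y := by rw [hy]; exact le_self_add
  refine ⟨⟨y, hyA⟩, hWV hyW, ?_⟩
  simp only [hy]
  exact Ordinal.add_sub_cancel γ ζ

end

section
variable {X Y : Type u} [TopologicalSpace X] [TopologicalSpace Y]

lemma R1.sum {ρ : X → Ordinal.{u}} {σ : Y → Ordinal.{u}} (h : R1 ρ) (h' : R1 σ) :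
    R1 (Sum.elim ρ σ) := by
  intro x
  rcases x with x | x
  · rw [eventually_nhdsWithin_iff, nhds_inl, eventually_map]
    filter_upwards [h.nhds x] with y hy hyx
    exact hy (fun hh => hyx (by rw [hh]; rfl))
  · rw [eventually_nhdsWithin_iff, nhds_inr, eventually_map]
    filter_upwards [h'.nhds x] with y hy hyx
    exact hy (fun hh => hyx (by rw [hh]; rfl))

lemma R2.sum {ρ : X → Ordinal.{u}} {σ : Y → Ordinal.{u}} (h : R2 ρ) (h' : R2 σ) :
    R2 (Sum.elim ρ σ) := by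
  intro x ζ hζ V hV
  rcases x with x | x
  · rw [nhds_inl, mem_map] at hV
    obtain ⟨y, hy, hy'⟩ := h x ζ hζ _ hV
    exact ⟨Sum.inl y, hy, hy'⟩
  · rw [nhds_inr, mem_map] at hV
    obtain ⟨y, hy, hy'⟩ := h' x ζ hζ _ hV
    exact ⟨Sum.inr y, hy, hy'⟩

lemma R1.punit : R1 (fun _ : PUnit.{u+1} => (0 : Ordinal.{u})) := by
  intro x
  rw [eventually_nhdsWithin_iff]
  exact Eventually.of_forall fun y hy => absurd (Subsingleton.elim y x) hy

lemma R2.punit : R2 (fun _ : PUnit.{u+1} => (0 : Ordinal.{u})) := by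
  intro x ζ hζ
  exact absurd hζ not_lt_zero

end

end Pool.Agent.H824PC
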