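import Pool.Agent.Helper824_pc.Ops

/-!
Cones: spaces with a single point of maximal rank.
-/

namespace Pool.Agent.H824PC

open Topology Filter Set

universe u

structure Cone (S : Type u) [TopologicalSpace S] (ρ : S → Ordinal.{u}) (t : S)
    (γ : Ordinal.{u}) : Prop where
  r1 : R1 ρ
  r2 : R2 ρ
  top : ρ t = γ
  lt : ∀ x, x ≠ t → ρ x < γ

section
variable {S : Type u} [TopologicalSpace S]

lemma good_top {σ : S → Ordinal.{u}} (hσ2 : R2 σ) {P : Set S} {γ : Ordinal.{u}} (hP : IsOpen P)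
    (h1 : ∀ w ∈ P, σ w < γ) (w0 : S) (hw0 : w0 ∉ P) (h2 : γ ≤ σ w0) (V0 : Set S)
    (hV0 : V0 ∈ 𝓝 w0) (h3 : ∀ w ∈ V0, σ w < γ → w ∈ P) : Good σ γ P := by
  refine ⟨hP, h1, ?_⟩
  intro C hC hCP ζ hζ
  obtain ⟨y, ⟨hyC, hyV⟩, hy⟩ := hσ2 w0 ζ (hζ.trans_le h2) (Cᶜ ∩ V0)
    (inter_mem (hC.isOpen_compl.mem_nhds (fun h => hw0 (hCP h))) hV0)
  exact ⟨y, ⟨h3 y hyV (by rw [hy]; exact hζ), hyC⟩, hy⟩

lemma Cone.good [T1Space S] {ρ : S → Ordinal.{u}} {t : S} {γ : Ordinal.{u}} (h : Cone S ρ t γ) :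
    Good ρ γ {t}ᶜ := by
  apply good_top h.r2 isOpen_compl_singleton (fun w hw => h.lt w hw) t (by simp) h.top.ge univ
    univ_mem
  intro w _ hw hwt
  rw [mem_singleton_iff] at hwt
  rw [hwt, h.top] at hw
  exact lt_irrefl _ hw

end

section
variable {S S' : Type u} [TopologicalSpace S] [TopologicalSpace S'] [CompactSpace S] [T2Space S]
  [Countable S] [CompactSpace S'] [T2Space S'] [Countable S']

lemma Cone.homeo {ρ : S → Ordinal.{u}} {t : S} {ρ' : S' → Ordinal.{u}} {t' : S'}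
    {γ : Ordinal.{u}} (h : Cone S ρ t γ) (h' : Cone S' ρ' t' γ) : PosP S S' := by
  have : Nonempty S := ⟨t⟩
  have : Nonempty S' := ⟨t'⟩
  have h1 : Hm ({t}ᶜ : Set S) ({t'}ᶜ : Set S') := uniq h.r1 h.r2 h'.r1 h'.r2 γ _ _ h.good h'.good
  rw [compl_eq_univ_sdiff, compl_eq_univ_sdiff] at h1
  have h2 : Hm (univ : Set S) (univ : Set S') :=
    Hm.ext' isOpen_univ isCompact_univ isOpen_univ isCompact_univ (mem_univ t) (mem_univ t') h1
  obtain ⟨e⟩ := hm_univ h2
  exact PosP.of_homeo e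

/-- the collapsing map of two copies (and one isolated point) onto the cone -/
lemma Cone.split_map {ρ : S → Ordinal.{u}} {t : S} {γ : Ordinal.{u}} (h : Cone S ρ t γ)
    (hγ : γ ≠ 0) : ∃ G : C((S ⊕ S) ⊕ PUnit.{u+1}, S), Function.Surjective G ∧
      G (Sum.inl (Sum.inl t)) = t ∧ G (Sum.inl (Sum.inr t)) = t ∧
      ∀ w w', G w = G w' → w = w' ∨
        ((w = Sum.inl (Sum.inl t) ∨ w = Sum.inl (Sum.inr t)) ∧
         (w' = Sum.inl (Sum.inl t) ∨ w' = Sum.inl (Sum.inr t))) := by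
  have : Nonempty S := ⟨t⟩
  let σ : (S ⊕ S) ⊕ PUnit.{u+1} → Ordinal.{u} := Sum.elim (Sum.elim ρ ρ) (fun _ => 0)
  have hσ1 : R1 σ := (h.r1.sum h.r1).sum R1.punit
  have hσ2 : R2 σ := (h.r2.sum h.r2).sum R2.punit
  let P : Set ((S ⊕ S) ⊕ PUnit.{u+1}) := {Sum.inl (Sum.inl t), Sum.inl (Sum.inr t)}ᶜ
  have hPmem : ∀ w, w ∉ P ↔ (w = Sum.inl (Sum.inl t) ∨ w = Sum.inl (Sum.inr t)) := by
    intro w
    simp only [P, mem_compl_iff, not_not, mem_insert_iff, mem_singleton_iff]
  have hPo : IsOpen P := ((Set.finite_singleton _).insert _).isClosed.isOpen_compl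
  have hgood : Good σ γ P := by
    apply good_top hσ2 hPo ?_ (Sum.inl (Sum.inl t)) (by rw [hPmem]; exact Or.inl rfl)
      h.top.ge univ univ_mem
    · intro w _ hw
      by_contra hwP
      rw [hPmem] at hwP
      rcases hwP with rfl | rfl
      · exact absurd hw (by show ¬ (ρ t < γ); rw [h.top]; exact lt_irrefl _)
      · exact absurd hw (by show ¬ (ρ t < γ); rw [h.top]; exact lt_irrefl _)
    · intro w hw
      rcases w with (w | w) | w
      · apply h.lt
        rintro rfl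
        exact ((hPmem _).mpr (Or.inl rfl)) hw
      · apply h.lt
        rintro rfl
        exact ((hPmem _).mpr (Or.inr rfl)) hw
      · exact pos_iff_ne_zero.mpr hγ
  obtain ⟨G, hG1, hG2, hG3, hG4⟩ := collapse (p := t) hPo
    ⟨Sum.inl (Sum.inl t), (hPmem _).mpr (Or.inl rfl)⟩ (uniq h.r1 h.r2 hσ1 hσ2 γ _ _ h.good hgood)
  refine ⟨G, hG1, hG3 _ ((hPmem _).mpr (Or.inl rfl)), hG3 _ ((hPmem _).mpr (Or.inr rfl)), ?_⟩
  intro w w' hww
  rcases hG4 w w' hww with h1 | ⟨h1, h2⟩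
  · exact Or.inl h1
  · exact Or.inr ⟨(hPmem _).mp h1, (hPmem _).mp h2⟩

lemma Cone.two_one {ρ : S → Ordinal.{u}} {t : S} {γ : Ordinal.{u}} (h : Cone S ρ t γ)
    (hγ : γ ≠ 0) : PosP (S ⊕ S) S := by
  obtain ⟨G, hG, ht1, ht2, hw⟩ := h.split_map hγ
  let c : ℝ → C(S, ℝ) := fun r => ContinuousMap.const S r
  obtain ⟨A, a, ha1, ha2, ha3⟩ := desc (L := S ⊕ S) G hG
    (fun f => celim (celim (cinl f + ContinuousMap.const S (f (Sum.inr t)))
      (cinr f + ContinuousMap.const S (f (Sum.inl t)))) (ContinuousMap.const _ (f (Sum.inl t))))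
    (Sum.elim (Sum.elim (fun s => ev _ (Sum.inl s) + ev _ (Sum.inr t))
      (fun s => ev _ (Sum.inr s) + ev _ (Sum.inl t))) (fun _ => ev _ (Sum.inl t)))
    (by
      rintro ((w | w) | w)
      · exact add_mem (ev_mem _) (ev_mem _)
      · exact add_mem (ev_mem _) (ev_mem _)
      · exact ev_mem _)
    (by
      rintro f ((w | w) | w) <;> rfl)
    (by
      intro f w w' hww
      rcases hw w w' hww with rfl | ⟨rfl | rfl, rfl | rfl⟩
      · rfl
      · rfl
      · simp [add_comm]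
      · simp [add_comm]
      · rfl)
  have e1 : ∀ f s, A f (G (Sum.inl (Sum.inl s))) = f (Sum.inl s) + f (Sum.inr t) :=
    fun f s => ha3 f _
  have e2 : ∀ f s, A f (G (Sum.inl (Sum.inr s))) = f (Sum.inr s) + f (Sum.inl t) :=
    fun f s => ha3 f _
  have e3 : ∀ f s, A f (G (Sum.inr s)) = f (Sum.inl t) := fun f s => ha3 f _
  have e4 : ∀ f, A f t = f (Sum.inl t) + f (Sum.inr t) := by
    intro f
    rw [← e1, ht1]
  apply PosP.mk' A (fun h => celim
      (h.comp (G.comp ⟨fun s => Sum.inl (Sum.inl s), by fun_prop⟩) - ContinuousMap.const S (h t)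
        + ContinuousMap.const S (h (G (Sum.inr PUnit.unit))))
      (h.comp (G.comp ⟨fun s => Sum.inl (Sum.inr s), by fun_prop⟩)
        - ContinuousMap.const S (h (G (Sum.inr PUnit.unit)))))
    a ha1 ha2
    (Sum.elim (fun s => ev _ (G (Sum.inl (Sum.inl s))) - ev _ t + ev _ (G (Sum.inr PUnit.unit)))
      (fun s => ev _ (G (Sum.inl (Sum.inr s))) - ev _ (G (Sum.inr PUnit.unit))))
  · rintro (w | w)
    · exact add_mem (sub_mem (ev_mem _) (ev_mem _)) (ev_mem _)
    · exact sub_mem (ev_mem _) (ev_mem _)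
  · rintro f (w | w) <;> rfl
  · rintro f (s | s)
    · show A f (G (Sum.inl (Sum.inl s))) - A f t + A f (G (Sum.inr PUnit.unit)) = f (Sum.inl s)
      rw [e1, e4, e3]; ring
    · show A f (G (Sum.inl (Sum.inr s))) - A f (G (Sum.inr PUnit.unit)) = f (Sum.inr s)
      rw [e2, e3]; ring
  · intro g y
    obtain ⟨w, rfl⟩ := hG y
    rcases w with (s | s) | s
    · rw [e1]
      show g (G (Sum.inl (Sum.inl s))) - g t + g (G (Sum.inr PUnit.unit)) +
        (g (G (Sum.inl (Sum.inr t))) - g (G (Sum.inr PUnit.unit))) = _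
      rw [ht2]; ring
    · rw [e2]
      show g (G (Sum.inl (Sum.inr s))) - g (G (Sum.inr PUnit.unit)) +
        (g (G (Sum.inl (Sum.inl t))) - g t + g (G (Sum.inr PUnit.unit))) = _
      rw [ht1]; ring
    · rw [e3]
      show g (G (Sum.inl (Sum.inl t))) - g t + g (G (Sum.inr PUnit.unit)) = _
      rw [ht1]; ring
  · intro f hf y
    obtain ⟨w, rfl⟩ := hG y
    rcases w with (s | s) | s
    · rw [e1]; exact add_nonneg (hf _) (hf _)
    · rw [e2]; exact add_nonneg (hf _) (hf _)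
    · rw [e3]; exact hf _

lemma Cone.one_two {ρ : S → Ordinal.{u}} {t : S} {γ : Ordinal.{u}} (h : Cone S ρ t γ)
    (hγ : γ ≠ 0) : PosP S (S ⊕ S) := by
  obtain ⟨G, hG, ht1, ht2, hw⟩ := h.split_map hγ
  obtain ⟨B, b, hb1, hb2, hb3⟩ := desc (L := S ⊕ S) G hG
    (fun f => celim (celim (cinl f)
      (cinr f - ContinuousMap.const S (f (Sum.inr t)) + ContinuousMap.const S (f (Sum.inl t))))
      (ContinuousMap.const _ (f (Sum.inr t) - f (Sum.inl t))))
    (Sum.elim (Sum.elim (fun s => ev _ (Sum.inl s))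
      (fun s => ev _ (Sum.inr s) - ev _ (Sum.inr t) + ev _ (Sum.inl t)))
      (fun _ => ev _ (Sum.inr t) - ev _ (Sum.inl t)))
    (by
      rintro ((w | w) | w)
      · exact ev_mem _
      · exact add_mem (sub_mem (ev_mem _) (ev_mem _)) (ev_mem _)
      · exact sub_mem (ev_mem _) (ev_mem _))
    (by
      rintro f ((w | w) | w) <;> rfl)
    (by
      intro f w w' hww
      rcases hw w w' hww with rfl | ⟨rfl | rfl, rfl | rfl⟩
      · rfl
      · rfl
      · simp
      · simp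
      · rfl)
  have e1 : ∀ f s, B f (G (Sum.inl (Sum.inl s))) = f (Sum.inl s) :=
    fun f s => hb3 f _
  have e2 : ∀ f s, B f (G (Sum.inl (Sum.inr s))) = f (Sum.inr s) - f (Sum.inr t) + f (Sum.inl t) :=
    fun f s => hb3 f _
  have e3 : ∀ f s, B f (G (Sum.inr s)) = f (Sum.inr t) - f (Sum.inl t) := fun f s => hb3 f _
  apply PosP.mk' (fun h => celim
      (h.comp (G.comp ⟨fun s => Sum.inl (Sum.inl s), by fun_prop⟩))
      (h.comp (G.comp ⟨fun s => Sum.inl (Sum.inr s), by fun_prop⟩)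
        + ContinuousMap.const S (h (G (Sum.inr PUnit.unit))))) B
    (Sum.elim (fun s => ev _ (G (Sum.inl (Sum.inl s))))
      (fun s => ev _ (G (Sum.inl (Sum.inr s))) + ev _ (G (Sum.inr PUnit.unit)))) ?_ ?_
    b hb1 hb2
  · intro f y
    obtain ⟨w, rfl⟩ := hG y
    rcases w with (s | s) | s
    · rw [e1]
      rfl
    · rw [e2]
      show f (G (Sum.inl (Sum.inr s))) + f (G (Sum.inr PUnit.unit)) -
        (f (G (Sum.inl (Sum.inr t))) + f (G (Sum.inr PUnit.unit))) + f (G (Sum.inl (Sum.inl t))) = _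
      rw [ht1, ht2]; ring
    · rw [e3]
      show f (G (Sum.inl (Sum.inr t))) + f (G (Sum.inr PUnit.unit)) - f (G (Sum.inl (Sum.inl t))) = _
      rw [ht1, ht2]; ring
  · rintro g (s | s)
    · exact e1 g s
    · show B g (G (Sum.inl (Sum.inr s))) + B g (G (Sum.inr PUnit.unit)) = _
      rw [e2, e3]; ring
  · rintro f hf (s | s)
    · exact hf _
    · exact add_nonneg (hf _) (hf _)
  · rintro (w | w)
    · exact ev_mem _
    · exact add_mem (ev_mem _) (ev_mem _)
  · rintro f (w | w) <;> rfl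

end

section retr
variable {L : Type u} [TopologicalSpace L] [CompactSpace L] [T2Space L] [Countable L]

/-- closed nonempty subsets of countable compact spaces are retracts -/
lemma exists_retr {A : Set L} (hA : IsClosed A) (hne : A.Nonempty) :
    ∃ r : C(L, A), ∀ a : A, r a = a := by
  classical
  have hex : ∀ p : L × L, ∃ U : Set L, IsClopen U ∧ (p.1 ≠ p.2 → p.1 ∈ U ∧ p.2 ∉ U) := by
    intro p
    by_cases hp : p.1 = p.2
    · exact ⟨∅, isClopen_empty, fun h => absurd hp h⟩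
    · obtain ⟨U, hU, h1, h2⟩ := compact_exists_isClopen_in_isOpen
        (isOpen_compl_singleton (x := p.2)) (show p.1 ∈ ({p.2}ᶜ : Set L) from hp)
      exact ⟨U, hU, fun _ => ⟨h1, fun h => h2 h rfl⟩⟩
  choose U hU hU' using hex
  have : Nonempty L := ⟨hne.some⟩
  obtain ⟨e, he⟩ := exists_surjective_nat (L × L)
  let Φ : L → (ℕ → Bool) := fun z n => decide (z ∈ U (e n))
  have hΦc : Continuous Φ := by
    apply continuous_pi
    intro n
    rw [continuous_bool_rng true]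
    convert hU (e n) using 1
    ext z
    simp [Φ]
  have hΦi : Function.Injective Φ := by
    intro x y hxy
    by_contra hne
    obtain ⟨n, hn⟩ := he (x, y)
    have h1 := congrFun hxy n
    have h2 := hU' (x, y) hne
    simp only [Φ, hn] at h1
    have h3 : decide (x ∈ U (x, y)) = true := decide_eq_true h2.1
    have h4 : decide (y ∈ U (x, y)) = false := decide_eq_false h2.2
    rw [h3, h4] at h1
    exact absurd h1 (by simp)
  have hemb : IsClosedEmbedding Φ := hΦc.isClosedEmbedding hΦi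
  have hs : IsClosed (Φ '' A) := hemb.isClosedMap A hA
  obtain ⟨R, hR1, -, hR3⟩ := PiNat.exists_retraction_subtype_of_isClosed hs (hne.image Φ)
  let H := hemb.isEmbedding.homeomorphImage A
  refine ⟨⟨fun z => H.symm (R (Φ z)), H.symm.continuous.comp (hR3.comp hΦc)⟩, ?_⟩
  intro a
  show H.symm (R (Φ a)) = a
  rw [H.symm_apply_eq]
  have h1 : Φ a = ((H a : Φ '' A) : ℕ → Bool) := rfl
  rw [h1]
  exact hR1 (H a)

end retr

section up
variable {K L : Type u} [TopologicalSpace K] [TopologicalSpace L] [CompactSpace K] [T2Space K]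
  [Countable K] [CompactSpace L] [T2Space L] [Countable L]

/-- raising the rank from `γ` to `γ + ξ`, `ξ ≤ γ` -/
lemma Cone.up {ρ : K → Ordinal.{u}} {p : K} {σ : L → Ordinal.{u}} {t : L} {γ ξ : Ordinal.{u}}
    (h : Cone K ρ p γ) (h' : Cone L σ t (γ + ξ)) (hξ : ξ ≤ γ) : PosP K L := by
  have : Nonempty K := ⟨p⟩
  have : Nonempty L := ⟨t⟩
  let A : Set L := {x | γ ≤ σ x}
  have htA : t ∈ A := by
    show γ ≤ σ t
    rw [h'.top]; exact le_self_add
  have hAc : IsClosed A := h'.r1.isClosed_ge γ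
  have : CompactSpace A := isCompact_iff_compactSpace.mp hAc.isCompact
  obtain ⟨r, hr⟩ := exists_retr hAc ⟨t, htA⟩
  let τ : L ⊕ A → Ordinal.{u} := Sum.elim σ (fun a => σ a - γ)
  have hτ1 : R1 τ := h'.r1.sum (h'.r1.sub γ)
  have hτ2 : R2 τ := h'.r2.sum (h'.r2.sub γ)
  let P : Set (L ⊕ A) := Sum.inl '' Aᶜ ∪ Sum.inr '' {(⟨t, htA⟩ : A)}ᶜ
  have hPo : IsOpen P := by
    apply IsOpen.union
    · exact isOpenMap_inl _ hAc.isOpen_compl
    · exact isOpenMap_inr _ isOpen_compl_singleton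
  have hP1 : ∀ x, Sum.inl x ∈ P ↔ x ∉ A := by
    intro x
    simp [P]
  have hP2 : ∀ a : A, Sum.inr a ∈ P ↔ a ≠ ⟨t, htA⟩ := by
    intro a
    simp [P]
  have hgood : Good τ γ P := by
    apply good_top hτ2 hPo ?_ (Sum.inl t) (by rw [hP1]; exact fun hh => hh htA) htA
      (range Sum.inl) (isOpen_range_inl.mem_nhds (mem_range_self t))
    · rintro w ⟨x, rfl⟩ hx
      rw [hP1]
      exact not_le.mpr hx
    · rintro (x | a) hw
      · rw [hP1] at hw
        exact not_le.mp hw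
      · rw [hP2] at hw
        show σ a - γ < γ
        have h1 : σ a < γ + ξ := h'.lt a (fun hh => hw (Subtype.ext hh))
        have h2 : σ a - γ < ξ := by
          rw [← add_lt_add_iff_left γ, Ordinal.add_sub_cancel_of_le a.2]
          exact h1
        exact h2.trans_le hξ
  obtain ⟨G, hG1, hG2, hG3, hG4⟩ := collapse (p := p) hPo
    ⟨Sum.inl t, by show Sum.inl t ∉ P; rw [hP1]; exact fun hh => hh htA⟩
    (uniq h.r1 h.r2 hτ1 hτ2 γ _ _ h.good hgood)
  have hGA : ∀ a : A, G (Sum.inl (a : L)) = p := fun a =>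
    hG3 _ (by rw [hP1]; exact fun hh => hh a.2)
  have hGt : G (Sum.inr ⟨t, htA⟩) = p := hG3 _ (by rw [hP2]; exact fun hh => hh rfl)
  let i : C(A, L) := ⟨Subtype.val, continuous_subtype_val⟩
  obtain ⟨B, b, hb1, hb2, hb3⟩ := desc (L := L) G hG1
    (fun g => celim (g - g.comp (i.comp r) + ContinuousMap.const L ((1/2 : ℝ) * g t))
      (g.comp i - ContinuousMap.const A ((1/2 : ℝ) * g t)))
    (Sum.elim (fun x => ev _ x - ev _ (r x : L) + (1/2 : ℝ) • ev _ t)
      (fun a => ev _ (a : L) - (1/2 : ℝ) • ev _ t))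
    (by
      rintro (x | a)
      · exact add_mem (sub_mem (ev_mem _) (ev_mem _)) (Submodule.smul_mem _ _ (ev_mem _))
      · exact sub_mem (ev_mem _) (Submodule.smul_mem _ _ (ev_mem _)))
    (by
      rintro f (x | a) <;> rfl)
    (by
      have key : ∀ (g : C(L, ℝ)) (w : L ⊕ A), w ∉ P →
          celim (g - g.comp (i.comp r) + ContinuousMap.const L ((1/2 : ℝ) * g t))
            (g.comp i - ContinuousMap.const A ((1/2 : ℝ) * g t)) w = (1/2 : ℝ) * g t := by
        rintro g (x | a) hw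
        · have hx : x ∈ A := by
            rw [hP1] at hw
            exact not_not.mp hw
          show g x - g (r x : L) + (1/2 : ℝ) * g t = _
          have : r x = ⟨x, hx⟩ := hr ⟨x, hx⟩
          rw [this]; ring
        · have ha : a = ⟨t, htA⟩ := by
            rw [hP2] at hw
            exact not_not.mp hw
          show g (a : L) - (1/2 : ℝ) * g t = _
          rw [ha]; ring
      intro g w w' hww
      rcases hG4 w w' hww with rfl | ⟨h1, h2⟩
      · rfl
      · rw [key g w h1, key g w' h2])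
  have e1 : ∀ (g : C(L, ℝ)) x, B g (G (Sum.inl x)) = g x - g (r x : L) + (1/2 : ℝ) * g t :=
    fun g x => hb3 g _
  have e2 : ∀ (g : C(L, ℝ)) (a : A), B g (G (Sum.inr a)) = g (a : L) - (1/2 : ℝ) * g t :=
    fun g x => hb3 g _
  apply PosP.mk' (fun f => f.comp (G.comp ⟨Sum.inl, continuous_inl⟩) +
      f.comp (G.comp ((⟨Sum.inr, continuous_inr⟩ : C(A, L ⊕ A)).comp r))) B
    (fun y => ev _ (G (Sum.inl y)) + ev _ (G (Sum.inr (r y))))
    (fun y => add_mem (ev_mem _) (ev_mem _)) (fun f y => rfl) b hb1 hb2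
  · intro f y
    obtain ⟨w, rfl⟩ := hG1 y
    rcases w with x | a
    · rw [e1]
      show f (G (Sum.inl x)) + f (G (Sum.inr (r x))) -
        (f (G (Sum.inl (r x : L))) + f (G (Sum.inr (r (r x : L))))) +
        (1/2 : ℝ) * (f (G (Sum.inl t)) + f (G (Sum.inr (r t)))) = _
      rw [hr (r x), hGA (r x), hGA ⟨t, htA⟩]
      have : r t = ⟨t, htA⟩ := hr ⟨t, htA⟩
      rw [this, hGt]; ring
    · rw [e2]
      show f (G (Sum.inl (a : L))) + f (G (Sum.inr (r (a : L)))) -
        (1/2 : ℝ) * (f (G (Sum.inl t)) + f (G (Sum.inr (r t)))) = _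
      rw [hr a, hGA a, hGA ⟨t, htA⟩]
      have : r t = ⟨t, htA⟩ := hr ⟨t, htA⟩
      rw [this, hGt]; ring
  · intro g y
    show B g (G (Sum.inl y)) + B g (G (Sum.inr (r y))) = _
    rw [e1, e2]; ring
  · intro f hf y
    exact add_nonneg (hf _) (hf _)

end up

end Pool.Agent.H824PC
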