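import Pool.Agent.Helper824_pc.Basic

/-!
Lower bound: operators from a space of large rank to a space of small rank are not bounded below.
-/

namespace Pool.Agent.H824PC

open Topology Filter Set

universe u

section ind
variable {L : Type u} [TopologicalSpace L]

/-- indicator of a clopen set -/
noncomputable def ind (W : Set L) (hW : IsClopen W) : C(L, ℝ) :=
  ⟨W.indicator 1, continuous_one.indicator (by simp [hW.frontier_eq])⟩

lemma ind_of_mem {W : Set L} {hW : IsClopen W} {x : L} (h : x ∈ W) : ind W hW x = 1 :=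
  indicator_of_mem h _

lemma ind_of_notMem {W : Set L} {hW : IsClopen W} {x : L} (h : x ∉ W) : ind W hW x = 0 :=
  indicator_of_notMem h _

lemma ind_nonneg (W : Set L) (hW : IsClopen W) (x : L) : 0 ≤ ind W hW x := by
  by_cases h : x ∈ W
  · rw [ind_of_mem h]; exact zero_le_one
  · rw [ind_of_notMem h]

lemma ind_le_one (W : Set L) (hW : IsClopen W) (x : L) : ind W hW x ≤ 1 := by
  by_cases h : x ∈ W
  · rw [ind_of_mem h]
  · rw [ind_of_notMem h]; exact zero_le_one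

end ind

section small
variable {K : Type u} [TopologicalSpace K]

def Small (F : Set K) (β : Ordinal.{u}) : Prop :=
  IsClosed F ∧ ∃ τ : K → Ordinal.{u}, (∀ x ∈ F, τ x < β) ∧
    ∀ x ∈ F, ∀ᶠ y in 𝓝 x, y ∈ F → y ≠ x → τ y < τ x

lemma exists_max {F : Set K} (hF : IsCompact F) (hne : F.Nonempty) (τ : K → Ordinal.{u})
    (h : ∀ x ∈ F, ∀ᶠ y in 𝓝 x, y ∈ F → y ≠ x → τ y < τ x) : ∃ x ∈ F, ∀ y ∈ F, τ y ≤ τ x := by
  have key : ∃ x ∈ F, ∀ y ∈ F, y ∈ F → τ y ≤ τ x := by
    refine hF.induction_on (p := fun s => ∃ x ∈ F, ∀ y ∈ s, y ∈ F → τ y ≤ τ x) ?_ ?_ ?_ ?_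
    · obtain ⟨x, hx⟩ := hne
      exact ⟨x, hx, fun y hy => absurd hy (notMem_empty y)⟩
    · rintro s t hst ⟨x, hx, hx'⟩
      exact ⟨x, hx, fun y hy hyF => hx' y (hst hy) hyF⟩
    · rintro s t ⟨x, hx, hx'⟩ ⟨z, hz, hz'⟩
      rcases le_total (τ x) (τ z) with hxz | hxz
      · refine ⟨z, hz, ?_⟩
        rintro y (hy | hy) hyF
        · exact (hx' y hy hyF).trans hxz
        · exact hz' y hy hyF
      · refine ⟨x, hx, ?_⟩
        rintro y (hy | hy) hyF
        · exact hx' y hy hyF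
        · exact (hz' y hy hyF).trans hxz
    · intro x hx
      refine ⟨_, mem_nhdsWithin_of_mem_nhds (h x hx), x, hx, ?_⟩
      intro y hy hyF
      by_cases hyx : y = x
      · rw [hyx]
      · exact (hy hyF hyx).le
  obtain ⟨x, hx, hx'⟩ := key
  exact ⟨x, hx, fun y hy => hx' y hy hy⟩

lemma finite_of_isolated {F : Set K} (hF : IsCompact F)
    (h : ∀ x ∈ F, ∀ᶠ y in 𝓝 x, y ∈ F → y = x) : F.Finite := by
  refine hF.induction_on (p := Set.Finite) finite_empty (fun s t hst ht => ht.subset hst)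
    (fun s t hs ht => hs.union ht) ?_
  intro x hx
  refine ⟨{x}, ?_, finite_singleton x⟩
  rw [mem_nhdsWithin_iff_eventually]
  filter_upwards [h x hx] with y hy hyF
  exact hy hyF

end small

section low
variable {K L : Type u} [TopologicalSpace K] [TopologicalSpace L] [CompactSpace K] [T2Space K]
  [CompactSpace L] [T2Space L] [Countable L]

/-- the inductive claim -/
def Claim (T : C(L, ℝ) →L[ℝ] C(K, ℝ)) (σ : L → Ordinal.{u}) (β δ : Ordinal.{u}) (ε : ℝ) : Prop :=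
  ∀ F, Small F β → ∀ η y0, η + δ ≤ σ y0 → ∀ V, IsClopen V → y0 ∈ V →
    ∃ f : C(L, ℝ), (∀ y, 0 ≤ f y) ∧ (∀ y, f y ≤ 1) ∧ (∀ y, y ∉ V → f y = 0) ∧
      (∃ V', IsClopen V' ∧ V' ⊆ V ∧ (∀ y ∈ V', f y = 1) ∧ ∃ y ∈ V', η ≤ σ y) ∧
      ∀ x ∈ F, |T f x| ≤ ε

/-- a bounded functional is small on functions living near `y0` but vanishing near `y0` -/
lemma func_small (φ : C(L, ℝ) →L[ℝ] ℝ) (y0 : L) {ε : ℝ} (hε : 0 < ε) :
    ∃ V, IsClopen V ∧ y0 ∈ V ∧ ∀ g : C(L, ℝ), (∀ y, |g y| ≤ 1) → (∀ y, y ∉ V → g y = 0) →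
      (∃ W, IsClopen W ∧ y0 ∈ W ∧ ∀ y ∈ W, g y = 0) → |φ g| ≤ ε := by
  by_contra hcon
  push Not at hcon
  have key : ∀ M : ℕ, ∀ V, IsClopen V → y0 ∈ V → ∃ g : C(L, ℝ), (∀ y, |g y| ≤ 1) ∧
      (∀ y, y ∉ V → g y = 0) ∧ (∃ W, IsClopen W ∧ W ⊆ V ∧ y0 ∈ W ∧ ∀ y ∈ W, g y = 0) ∧
      M * ε ≤ φ g := by
    intro M
    induction M with
    | zero =>
      intro V hV hy
      exact ⟨0, by simp, by simp, ⟨V, hV, Subset.rfl, hy, by simp⟩, by simp⟩
    | succ M ih =>
      intro V hV hy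
      obtain ⟨g, hg1, hg2, ⟨W, hW, hWV, hyW, hgW⟩, hg3⟩ := ih V hV hy
      obtain ⟨g', hg'1, hg'2, ⟨W', hW', hyW', hgW'⟩, hg'3⟩ := hcon W hW hyW
      -- sign
      have hsign : ∃ g'' : C(L, ℝ), (∀ y, |g'' y| ≤ 1) ∧ (∀ y, y ∉ W → g'' y = 0) ∧
          (∀ y ∈ W', g'' y = 0) ∧ ε < φ g'' := by
        rcases le_total 0 (φ g') with h | h
        · exact ⟨g', hg'1, hg'2, hgW', by rwa [abs_of_nonneg h] at hg'3⟩
        · refine ⟨-g', fun y => by simpa using hg'1 y, fun y hy => by simp [hg'2 y hy],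
            fun y hy => by simp [hgW' y hy], ?_⟩
          rw [map_neg]
          rwa [abs_of_nonpos h] at hg'3
      obtain ⟨g'', h1, h2, h3, h4⟩ := hsign
      refine ⟨g + g'', ?_, ?_, ⟨W ∩ W', hW.inter hW', fun y hy => hWV hy.1, ⟨hyW, hyW'⟩, ?_⟩, ?_⟩
      · intro y
        by_cases hyW2 : y ∈ W
        · simp only [ContinuousMap.add_apply, hgW y hyW2, zero_add]
          exact h1 y
        · simp only [ContinuousMap.add_apply, h2 y hyW2, add_zero]
          exact hg1 y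
      · intro y hyV
        simp [hg2 y hyV, h2 y (fun hh => hyV (hWV hh))]
      · intro y hy
        simp [hgW y hy.1, h3 y hy.2]
      · rw [map_add]
        push_cast
        linarith
  obtain ⟨M, hM⟩ := exists_nat_gt (‖φ‖ / ε)
  obtain ⟨g, hg1, -, -, hg3⟩ := key M univ isClopen_univ (mem_univ _)
  have h1 : ‖g‖ ≤ 1 := by
    rw [ContinuousMap.norm_le _ zero_le_one]
    exact hg1
  have h2 : φ g ≤ ‖φ‖ := by
    calc φ g ≤ ‖φ g‖ := le_abs_self _
      _ ≤ ‖φ‖ * ‖g‖ := φ.le_opNorm g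
      _ ≤ ‖φ‖ * 1 := by gcongr
      _ = ‖φ‖ := mul_one _
  rw [div_lt_iff₀ hε] at hM
  linarith

/-- evaluation as a continuous functional -/
noncomputable def evc (x : K) : C(K, ℝ) →L[ℝ] ℝ := ContinuousMap.evalCLM ℝ x

lemma claim_base (T : C(L, ℝ) →L[ℝ] C(K, ℝ)) {σ : L → Ordinal.{u}} (hσ : R2 σ) {ε : ℝ}
    (hε : 0 < ε) : Claim T σ 1 1 ε := by
  rintro F ⟨hF, τ, hτ1, hτ2⟩ η y0 hy0 V hV hyV
  have hτ0 : ∀ x ∈ F, τ x = 0 := fun x hx => Order.lt_one_iff.mp (hτ1 x hx)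
  have hfin : F.Finite := by
    apply finite_of_isolated hF.isCompact
    intro x hx
    filter_upwards [hτ2 x hx] with y hy hyF
    by_contra hyx
    have := hy hyF hyx
    rw [hτ0 x hx] at this
    exact not_lt_zero this
  have hex : ∀ x : K, ∃ V, IsClopen V ∧ y0 ∈ V ∧ ∀ g : C(L, ℝ), (∀ y, |g y| ≤ 1) →
      (∀ y, y ∉ V → g y = 0) → (∃ W, IsClopen W ∧ y0 ∈ W ∧ ∀ y ∈ W, g y = 0) →
      |T g x| ≤ ε := fun x => func_small ((evc x).comp T) y0 hε
  choose U hU1 hU2 hU3 using hex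
  have hV0 : IsClopen (V ∩ ⋂ x ∈ F, U x) := hV.inter (hfin.isClopen_biInter fun x _ => hU1 x)
  have hy0V : y0 ∈ V ∩ ⋂ x ∈ F, U x := ⟨hyV, by simp only [mem_iInter]; exact fun x _ => hU2 x⟩
  have hlt : η < σ y0 := lt_of_lt_of_le (by
    rw [← Order.succ_eq_add_one]; exact Order.lt_succ η) hy0
  obtain ⟨y, hy1, hy2⟩ := hσ y0 η hlt _ (hV0.isOpen.mem_nhds hy0V)
  have hyne : y ≠ y0 := by
    rintro rfl
    rw [hy2] at hlt
    exact lt_irrefl _ hlt
  obtain ⟨W, hW, hyW, hWsub⟩ := compact_exists_isClopen_in_isOpen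
    (hV0.isOpen.sdiff (isClosed_singleton (x := y0))) (show y ∈ _ \ _ from ⟨hy1, hyne⟩)
  refine ⟨ind W hW, ind_nonneg W hW, ind_le_one W hW, ?_, ⟨W, hW, fun z hz => (hWsub hz).1.1,
    fun z hz => ind_of_mem hz, y, hyW, hy2.ge⟩, ?_⟩
  · intro z hz
    exact ind_of_notMem (fun hh => hz (hWsub hh).1.1)
  · intro x hx
    apply hU3 x
    · intro z
      rw [abs_of_nonneg (ind_nonneg W hW z)]
      exact ind_le_one W hW z
    · intro z hz
      apply ind_of_notMem
      intro hh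
      have h1 := (hWsub hh).1.2
      simp only [mem_iInter] at h1
      exact hz (h1 x hx)
    · exact ⟨Wᶜ, hW.compl, fun hh => (hWsub hh).2 rfl, fun z hz => ind_of_notMem hz⟩

open Ordinal in
lemma claim_step (T : C(L, ℝ) →L[ℝ] C(K, ℝ)) {σ : L → Ordinal.{u}} {κ : Ordinal.{u}} {m : ℕ}
    (hm : 1 ≤ m) (h : ∀ ε > 0, ∃ N : ℕ, Claim T σ (κ * m) (κ * N) ε) :
    ∀ ε > 0, ∃ N : ℕ, Claim T σ (κ * (m + 1 : ℕ)) (κ * N) ε := by
  intro ε hε
  set C := ‖T‖ with hC
  have hC0 : 0 ≤ C := norm_nonneg T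
  obtain ⟨n, hn⟩ := exists_nat_gt (2 * C / ε)
  have hn0 : 0 < n := by
    rcases Nat.eq_zero_or_pos n with h0 | h0
    · rw [h0] at hn
      have : 0 ≤ 2 * C / ε := by positivity
      norm_num at hn
      linarith
    · exact h0
  have hn0' : (0 : ℝ) < n := by exact_mod_cast hn0
  obtain ⟨N', hN'⟩ := h (ε / 4) (by positivity)
  refine ⟨N' * n, ?_⟩
  rintro F ⟨hF, τ, hτ1, hτ2⟩
  set F1 : Set K := {x | x ∈ F ∧ κ ≤ τ x} with hF1
  have hF1c : IsClosed F1 := by
    rw [← isOpen_compl_iff, isOpen_iff_mem_nhds]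
    intro x hx
    by_cases hxF : x ∈ F
    · have hxκ : τ x < κ := by
        by_contra hh
        exact hx ⟨hxF, not_lt.mp hh⟩
      filter_upwards [hτ2 x hxF] with y hy hyF1
      by_cases hyx : y = x
      · rw [hyx] at hyF1
        exact hx hyF1
      · exact absurd ((hy hyF1.1 hyx).trans hxκ) (not_lt.mpr hyF1.2)
    · filter_upwards [hF.isOpen_compl.mem_nhds hxF] with y hy hyF1
      exact hy hyF1.1
  have chain : ∀ i : ℕ, ∀ η y0, η + κ * (N' * i : ℕ) ≤ σ y0 → ∀ V, IsClopen V → y0 ∈ V →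
      ∃ (g : C(L, ℝ)) (G : Set K), IsClosed G ∧ G ⊆ F ∧ (∀ x ∈ G, x ∉ F1) ∧ (∀ y, 0 ≤ g y) ∧
        (∀ y, g y ≤ i) ∧ (∀ y, y ∉ V → g y = 0) ∧
        (∃ V', IsClopen V' ∧ V' ⊆ V ∧ (∀ y ∈ V', g y = i) ∧ ∃ y ∈ V', η ≤ σ y) ∧
        (∀ x ∈ F, x ∉ G → |T g x| ≤ i * (ε / 2)) ∧ (∀ x ∈ F, |T g x| ≤ C + i * (ε / 2)) := by
    intro i
    induction i with
    | zero =>
      intro η y0 hy0 V hV hyV
      refine ⟨0, ∅, isClosed_empty, empty_subset _, fun x hx => absurd hx (notMem_empty x),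
        fun y => le_rfl, fun y => by simp, fun y _ => rfl,
        ⟨V, hV, Subset.rfl, fun y _ => by simp, y0, hyV, ?_⟩, ?_, ?_⟩
      · refine le_trans ?_ hy0
        exact le_self_add
      · intro x _ _; simp
      · intro x _; simp [hC0]
    | succ i ih =>
      intro η y0 hy0 V hV hyV
      have hy0' : (η + κ * N') + κ * (N' * i : ℕ) ≤ σ y0 := by
        rw [add_assoc, ← mul_add, ← Nat.cast_add]
        have : N' + N' * i = N' * (i + 1) := by ring
        rw [this]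
        exact hy0
      obtain ⟨g, G, hG1, hG2, hG3, hg1, hg2, hg3, ⟨V', hV', hV'V, hgV', y, hyV', hy⟩, hT1, hT2⟩ :=
        ih _ y0 hy0' V hV hyV
      have hsm : Small (F1 ∪ G) (κ * m) := by
        classical
        refine ⟨hF1c.union hG1, fun x => if κ ≤ τ x then τ x - κ else τ x, ?_, ?_⟩
        · rintro x (hx | hx)
          · show (if κ ≤ τ x then τ x - κ else τ x) < _
            rw [if_pos hx.2, ← add_lt_add_iff_left κ, Ordinal.add_sub_cancel_of_le hx.2]
            have := hτ1 x hx.1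
            rwa [Nat.add_comm, Nat.cast_add, mul_add, Nat.cast_one, mul_one] at this
          · show (if κ ≤ τ x then τ x - κ else τ x) < _
            have h1 : ¬ κ ≤ τ x := fun hh => hG3 x hx ⟨hG2 hx, hh⟩
            rw [if_neg h1]
            refine (not_le.mp h1).trans_le ?_
            conv_lhs => rw [← mul_one κ]
            gcongr
            exact_mod_cast hm
        · rintro x (hx | hx)
          · have hxG : x ∉ G := fun hh => hG3 x hh hx
            filter_upwards [hτ2 x hx.1, hG1.isOpen_compl.mem_nhds hxG] with z hz hzG hzF hzx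
            have hzF1 : z ∈ F1 := hzF.resolve_right hzG
            rw [if_pos hx.2, if_pos hzF1.2, ← add_lt_add_iff_left κ,
              Ordinal.add_sub_cancel_of_le hzF1.2, Ordinal.add_sub_cancel_of_le hx.2]
            exact hz hzF1.1 hzx
          · have hxF1 : x ∉ F1 := hG3 x hx
            have h1 : ¬ κ ≤ τ x := fun hh => hG3 x hx ⟨hG2 hx, hh⟩
            filter_upwards [hτ2 x (hG2 hx), hF1c.isOpen_compl.mem_nhds hxF1] with z hz hzF1 hzF hzx
            have hzG : z ∈ G := hzF.resolve_left hzF1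
            have h2 : ¬ κ ≤ τ z := fun hh => hG3 z hzG ⟨hG2 hzG, hh⟩
            rw [if_neg h1, if_neg h2]
            exact hz (hG2 hzG) hzx
      obtain ⟨f, hf1, hf2, hf3, ⟨V'', hV'', hV''V', hfV'', y', hyV'', hy'⟩, hTf⟩ :=
        hN' (F1 ∪ G) hsm η y hy V' hV' hyV'
      have hfn : ‖f‖ ≤ 1 := by
        rw [ContinuousMap.norm_le _ zero_le_one]
        intro z
        rw [Real.norm_eq_abs, abs_of_nonneg (hf1 z)]
        exact hf2 z
      have hTfC : ∀ x, |T f x| ≤ C := by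
        intro x
        calc |T f x| ≤ ‖T f‖ := (T f).norm_coe_le_norm x
          _ ≤ ‖T‖ * ‖f‖ := T.le_opNorm f
          _ ≤ ‖T‖ * 1 := by gcongr
          _ = C := mul_one _
      have hadd : ∀ x, |T (g + f) x| ≤ |T g x| + |T f x| := by
        intro x
        rw [map_add]
        exact abs_add_le _ _
      refine ⟨g + f, G ∪ {x | x ∈ F ∧ ε / 2 ≤ |T f x|}, hG1.union (hF.inter
        (isClosed_le continuous_const (T f).continuous.abs)), union_subset hG2 (fun x hx => hx.1),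
        ?_, fun z => add_nonneg (hg1 z) (hf1 z), ?_, ?_, ⟨V'', hV'', hV''V'.trans hV'V, ?_, y',
        hyV'', hy'⟩, ?_, ?_⟩
      · rintro x (hx | hx) hxF1
        · exact hG3 x hx hxF1
        · have h1 := hTf x (Or.inl hxF1)
          have h2 : ε / 2 ≤ |T f x| := hx.2
          linarith
      · intro z
        push_cast
        exact add_le_add (hg2 z) (hf2 z)
      · intro z hz
        rw [ContinuousMap.add_apply, hg3 z hz, hf3 z (fun hh => hz (hV'V hh)), add_zero]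
      · intro z hz
        rw [ContinuousMap.add_apply, hgV' z (hV''V' hz), hfV'' z hz]
        push_cast; rfl
      · intro x hx hxG
        have h1 : x ∉ G := fun hh => hxG (Or.inl hh)
        have h2 : |T f x| < ε / 2 := by
          by_contra hh
          exact hxG (Or.inr ⟨hx, not_lt.mp hh⟩)
        have h3 := hT1 x hx h1
        have h4 := hadd x
        push_cast
        linarith
      · intro x hx
        have h4 := hadd x
        push_cast
        by_cases h1 : x ∈ G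
        · have h2 := hTf x (Or.inr h1)
          have h3 := hT2 x hx
          linarith
        · have h2 := hTfC x
          have h3 := hT1 x hx h1
          linarith
  intro η y0 hy0 V hV hyV
  obtain ⟨g, G, -, -, -, hg1, hg2, hg3, ⟨V', hV', hV'V, hgV', y, hyV', hy⟩, -, hT2⟩ :=
    chain n η y0 hy0 V hV hyV
  have hinv : 0 ≤ (n : ℝ)⁻¹ := by positivity
  refine ⟨(n : ℝ)⁻¹ • g, ?_, ?_, ?_, ⟨V', hV', hV'V, ?_, y, hyV', hy⟩, ?_⟩
  · intro z
    exact mul_nonneg hinv (hg1 z)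
  · intro z
    show (n : ℝ)⁻¹ * g z ≤ 1
    rw [inv_mul_le_iff₀ hn0', mul_one]
    exact hg2 z
  · intro z hz
    show (n : ℝ)⁻¹ * g z = 0
    rw [hg3 z hz, mul_zero]
  · intro z hz
    show (n : ℝ)⁻¹ * g z = 1
    rw [hgV' z hz]
    exact inv_mul_cancel₀ hn0'.ne'
  · intro x hx
    rw [map_smul]
    show |(n : ℝ)⁻¹ * T g x| ≤ ε
    rw [abs_mul, abs_of_nonneg hinv, inv_mul_le_iff₀ hn0']
    have h1 := hT2 x hx
    have h2 : 2 * C < n * ε := by rwa [div_lt_iff₀ hε] at hn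
    nlinarith

open Ordinal in
lemma claim_all (T : C(L, ℝ) →L[ℝ] C(K, ℝ)) {σ : L → Ordinal.{u}} (hσ : R2 σ)
    (α : Ordinal.{u}) : ∀ ε > 0, Claim T σ (ω ^ α) (ω ^ α) ε := by
  induction α using Ordinal.limitRecOn with
  | zero =>
    intro ε hε
    rw [opow_zero]
    exact claim_base T hσ hε
  | add_one α ih =>
    -- all finite multiples
    have hmul : ∀ m : ℕ, 1 ≤ m → ∀ ε > 0, ∃ N : ℕ, Claim T σ (ω ^ α * m) (ω ^ α * N) ε := by
      intro m hm
      induction m, hm using Nat.le_induction with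
      | base =>
        intro ε hε
        refine ⟨1, ?_⟩
        rw [Nat.cast_one, mul_one]
        exact ih ε hε
      | succ m hm ihm => exact claim_step T hm ihm
    intro ε hε F hF η y0 hy0 V hV hyV
    have hex : ∃ m : ℕ, 1 ≤ m ∧ Small F (ω ^ α * m) := by
      obtain ⟨hFc, τ, hτ1, hτ2⟩ := hF
      by_cases hne : F.Nonempty
      · obtain ⟨x, hx, hmax⟩ := exists_max hFc.isCompact hne τ hτ2
        have h1 := hτ1 x hx
        rw [← Order.succ_eq_add_one, lt_omega0_opow_succ] at h1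
        obtain ⟨m, hm⟩ := h1
        refine ⟨m, ?_, hFc, τ, fun y hy => (hmax y hy).trans_lt hm, hτ2⟩
        rcases Nat.eq_zero_or_pos m with h0 | h0
        · rw [h0, Nat.cast_zero, mul_zero] at hm
          exact absurd hm not_lt_zero
        · exact h0
      · rw [not_nonempty_iff_eq_empty] at hne
        subst hne
        exact ⟨1, le_rfl, hFc, τ, fun x hx => absurd hx (notMem_empty x), hτ2⟩
    obtain ⟨m, hm1, hm2⟩ := hex
    obtain ⟨N, hN⟩ := hmul m hm1 ε hε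
    refine hN F hm2 η y0 (le_trans ?_ hy0) V hV hyV
    gcongr
    rw [← Order.succ_eq_add_one, opow_succ]
    gcongr
    exact (natCast_lt_omega0 N).le
  | limit α hα ih =>
    intro ε hε F hF η y0 hy0 V hV hyV
    obtain ⟨hFc, τ, hτ1, hτ2⟩ := hF
    have hex : ∃ α' < α, Small F (ω ^ α') := by
      by_cases hne : F.Nonempty
      · obtain ⟨x, hx, hmax⟩ := exists_max hFc.isCompact hne τ hτ2
        have h1 := hτ1 x hx
        rw [lt_opow_of_isSuccLimit omega0_ne_zero hα] at h1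
        obtain ⟨α', hα', hx'⟩ := h1
        exact ⟨α', hα', hFc, τ, fun y hy => (hmax y hy).trans_lt hx', hτ2⟩
      · rw [not_nonempty_iff_eq_empty] at hne
        subst hne
        exact ⟨0, hα.bot_lt, hFc, τ, fun x hx => absurd hx (notMem_empty x), hτ2⟩
    obtain ⟨α', hα', hF'⟩ := hex
    refine ih α' hα' ε hε F hF' η y0 (le_trans ?_ hy0) V hV hyV
    gcongr
    exact omega0_pos

open Ordinal in
/-- **Lower bound.** -/
theorem low (T : C(L, ℝ) →L[ℝ] C(K, ℝ)) {σ : L → Ordinal.{u}} (hσ : R2 σ) {ρ : K → Ordinal.{u}}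
    (hρ : R1 ρ) {α : Ordinal.{u}} (hρα : ∀ x, ρ x < ω ^ α) {y0 : L} (hy0 : ω ^ α ≤ σ y0)
    {ε : ℝ} (hε : 0 < ε) : ∃ f : C(L, ℝ), (∃ y, f y = 1) ∧ ∀ x, |T f x| ≤ ε := by
  obtain ⟨f, -, -, -, ⟨V', -, -, h1, y, hy, -⟩, h2⟩ := claim_all T hσ α ε hε univ
    ⟨isClosed_univ, ρ, fun x _ => hρα x, fun x _ => by
      filter_upwards [hρ.nhds x] with y hy _ hyx
      exact hy hyx⟩ 0 y0 (by rwa [zero_add]) univ isClopen_univ (mem_univ _)
  exact ⟨f, ⟨y, h1 y hy⟩, fun x => h2 x (mem_univ x)⟩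

end low

end Pool.Agent.H824PC
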