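import Pool.Agent.Helper824_pc.Uniq

/-!
Positive linear homeomorphisms between spaces `C_p`.
-/

namespace Pool.Agent.H824PC

open Topology Filter Set

universe u

section basic
variable (K : Type u) [TopologicalSpace K]

/-- evaluation functional -/
def ev (x : K) : Module.Dual ℝ C(K, ℝ) where
  toFun f := f x
  map_add' _ _ := rfl
  map_smul' _ _ := rfl

/-- finite linear combinations of evaluations -/
def Lc : Submodule ℝ (Module.Dual ℝ C(K, ℝ)) := Submodule.span ℝ (range (ev K))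

variable {K}

lemma ev_mem (x : K) : ev K x ∈ Lc K := Submodule.subset_span (mem_range_self x)

@[simp] lemma ev_apply (x : K) (f : C(K, ℝ)) : ev K x f = f x := rfl

end basic

section
variable {K L M : Type u} [TopologicalSpace K] [TopologicalSpace L] [TopologicalSpace M]

/-- there is a positive linear bijection which, together with its inverse, is given by finite
linear combinations of evaluations -/
def PosP (K L : Type u) [TopologicalSpace K] [TopologicalSpace L] : Prop :=
  ∃ T : C(K, ℝ) ≃ₗ[ℝ] C(L, ℝ), (∀ f, 0 ≤ f → 0 ≤ T f) ∧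
    (∀ y, (ev L y).comp T.toLinearMap ∈ Lc K) ∧ (∀ x, (ev K x).comp T.symm.toLinearMap ∈ Lc L)

lemma PosP.mk' (A : C(K, ℝ) → C(L, ℝ)) (B : C(L, ℝ) → C(K, ℝ))
    (a : L → Module.Dual ℝ C(K, ℝ)) (ha : ∀ y, a y ∈ Lc K) (hA : ∀ f y, A f y = a y f)
    (b : K → Module.Dual ℝ C(L, ℝ)) (hb : ∀ y, b y ∈ Lc L) (hB : ∀ f y, B f y = b y f)
    (hBA : ∀ f x, B (A f) x = f x) (hAB : ∀ g y, A (B g) y = g y)
    (hpos : ∀ f : C(K, ℝ), (∀ x, 0 ≤ f x) → ∀ y, 0 ≤ A f y) : PosP K L := by
  let T : C(K, ℝ) ≃ₗ[ℝ] C(L, ℝ) :=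
    { toFun := A
      map_add' := by intro f g; ext y; simp [hA]
      map_smul' := by intro c g; ext y; simp [hA]
      invFun := B
      left_inv := fun f => by ext x; exact hBA f x
      right_inv := fun g => by ext x; exact hAB g x }
  refine ⟨T, ?_, ?_, ?_⟩
  · intro f hf y
    exact hpos f (fun x => hf x) y
  · intro y
    have : (ev L y).comp T.toLinearMap = a y := by
      ext f
      exact hA f y
    rw [this]
    exact ha y
  · intro y
    have : (ev K y).comp T.symm.toLinearMap = b y := by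
      ext f
      exact hB f y
    rw [this]
    exact hb y

lemma comp_mem {T : C(K, ℝ) →ₗ[ℝ] C(L, ℝ)} (hT : ∀ y, (ev L y).comp T ∈ Lc K)
    {φ : Module.Dual ℝ C(L, ℝ)} (hφ : φ ∈ Lc L) : φ.comp T ∈ Lc K := by
  induction hφ using Submodule.span_induction with
  | mem x hx =>
    obtain ⟨y, rfl⟩ := hx
    exact hT y
  | zero => rw [LinearMap.zero_comp]; exact zero_mem _
  | add x y _ _ hx hy => rw [LinearMap.add_comp]; exact add_mem hx hy
  | smul c x _ hx => rw [LinearMap.smul_comp]; exact Submodule.smul_mem _ _ hx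

lemma PosP.trans (h1 : PosP K L) (h2 : PosP L M) : PosP K M := by
  obtain ⟨T, hT1, hT2, hT3⟩ := h1
  obtain ⟨S, hS1, hS2, hS3⟩ := h2
  refine ⟨T.trans S, fun f hf => hS1 _ (hT1 f hf), fun y => ?_, fun x => ?_⟩
  · exact comp_mem hT2 (hS2 y)
  · exact comp_mem hS3 (hT3 x)

lemma PosP.of_homeo (e : K ≃ₜ L) : PosP K L := by
  apply PosP.mk' (fun f => f.comp ⟨e.symm, e.symm.continuous⟩) (fun g => g.comp ⟨e, e.continuous⟩)
    (fun y => ev K (e.symm y)) (fun y => ev_mem _) (fun f y => rfl)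
    (fun y => ev L (e y)) (fun y => ev_mem _) (fun f y => rfl)
  · intro f x; simp
  · intro f x; simp
  · intro f hf y
    exact hf _

lemma PosP.refl : PosP K K := PosP.of_homeo (Homeomorph.refl K)

lemma hm_univ (h : Hm (univ : Set K) (univ : Set L)) : Nonempty (K ≃ₜ L) := by
  obtain ⟨f, g, -, -, h3, h4, h5, h6⟩ := h
  have h5' := continuousOn_univ.mp h5
  have h6' := continuousOn_univ.mp h6
  exact ⟨⟨⟨f, g, fun x => h3 x (mem_univ x), fun x => h4 x (mem_univ x)⟩, h5', h6'⟩⟩

end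

section sum
variable {K L K' L' : Type u} [TopologicalSpace K] [TopologicalSpace L] [TopologicalSpace K']
  [TopologicalSpace L']

/-- restriction to the summands and back -/
def cinl (f : C(K ⊕ K', ℝ)) : C(K, ℝ) := ⟨fun x => f (Sum.inl x), f.continuous.comp continuous_inl⟩
def cinr (f : C(K ⊕ K', ℝ)) : C(K', ℝ) := ⟨fun x => f (Sum.inr x), f.continuous.comp continuous_inr⟩
def celim (f : C(K, ℝ)) (g : C(K', ℝ)) : C(K ⊕ K', ℝ) :=
  ⟨Sum.elim f g, f.continuous.sumElim g.continuous⟩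

@[simp] lemma cinl_apply (f : C(K ⊕ K', ℝ)) (x : K) : cinl f x = f (Sum.inl x) := rfl
@[simp] lemma cinr_apply (f : C(K ⊕ K', ℝ)) (x : K') : cinr f x = f (Sum.inr x) := rfl
@[simp] lemma celim_inl (f : C(K, ℝ)) (g : C(K', ℝ)) (x : K) : celim f g (Sum.inl x) = f x := rfl
@[simp] lemma celim_inr (f : C(K, ℝ)) (g : C(K', ℝ)) (x : K') : celim f g (Sum.inr x) = g x := rfl

lemma cinl_celim (f : C(K, ℝ)) (g : C(K', ℝ)) : cinl (celim f g) = f := by ext; rfl
lemma cinr_celim (f : C(K, ℝ)) (g : C(K', ℝ)) : cinr (celim f g) = g := by ext; rfl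

def cinlL : C(K ⊕ K', ℝ) →ₗ[ℝ] C(K, ℝ) where
  toFun := cinl
  map_add' _ _ := rfl
  map_smul' _ _ := rfl

def cinrL : C(K ⊕ K', ℝ) →ₗ[ℝ] C(K', ℝ) where
  toFun := cinr
  map_add' _ _ := rfl
  map_smul' _ _ := rfl

lemma PosP.sum (h1 : PosP K L) (h2 : PosP K' L') : PosP (K ⊕ K') (L ⊕ L') := by
  obtain ⟨T, hT1, hT2, hT3⟩ := h1
  obtain ⟨S, hS1, hS2, hS3⟩ := h2
  apply PosP.mk' (K := K ⊕ K') (L := L ⊕ L')
    (fun f => celim (T (cinl f)) (S (cinr f)))
    (fun g => celim (T.symm (cinl g)) (S.symm (cinr g)))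
    (Sum.elim (fun y => ((ev L y).comp T.toLinearMap).comp cinlL)
      (fun y => ((ev L' y).comp S.toLinearMap).comp cinrL)) ?_ ?_
    (Sum.elim (fun y => ((ev K y).comp T.symm.toLinearMap).comp cinlL)
      (fun y => ((ev K' y).comp S.symm.toLinearMap).comp cinrL)) ?_ ?_ ?_ ?_ ?_
  · rintro (y | y)
    · exact comp_mem (fun x => ev_mem (Sum.inl x)) (hT2 y)
    · exact comp_mem (fun x => ev_mem (Sum.inr x)) (hS2 y)
  · rintro f (y | y) <;> rfl
  · rintro (y | y)
    · exact comp_mem (fun x => ev_mem (Sum.inl x)) (hT3 y)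
    · exact comp_mem (fun x => ev_mem (Sum.inr x)) (hS3 y)
  · rintro f (y | y) <;> rfl
  · rintro f (x | x)
    · show T.symm (cinl (celim (T (cinl f)) (S (cinr f)))) x = _
      rw [cinl_celim, LinearEquiv.symm_apply_apply, cinl_apply]
    · show S.symm (cinr (celim (T (cinl f)) (S (cinr f)))) x = _
      rw [cinr_celim, LinearEquiv.symm_apply_apply, cinr_apply]
  · rintro f (x | x)
    · show T (cinl (celim (T.symm (cinl f)) (S.symm (cinr f)))) x = _
      rw [cinl_celim, LinearEquiv.apply_symm_apply, cinl_apply]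
    · show S (cinr (celim (T.symm (cinl f)) (S.symm (cinr f)))) x = _
      rw [cinr_celim, LinearEquiv.apply_symm_apply, cinr_apply]
  · rintro f hf (x | x)
    · exact hT1 (cinl f) (fun z => hf (Sum.inl z)) x
    · exact hS1 (cinr f) (fun z => hf (Sum.inr z)) x

end sum

section collapse
variable {K L Z : Type u} [TopologicalSpace K] [TopologicalSpace L] [TopologicalSpace Z]

/-- the collapsing map -/
lemma collapse [CompactSpace K] [T2Space K] [CompactSpace Z] [T2Space Z] {p : K} {P : Set Z}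
    (hP : IsOpen P) (hne : Pᶜ.Nonempty) (h : Hm ({p}ᶜ : Set K) P) :
    ∃ G : C(Z, K), Function.Surjective G ∧ (∀ w ∈ P, G w ≠ p) ∧ (∀ w ∉ P, G w = p) ∧
      (∀ w w', G w = G w' → w = w' ∨ (w ∉ P ∧ w' ∉ P)) := by
  classical
  obtain ⟨f, g, h1, h2, h3, h4, h5, h6⟩ := h
  let G : Z → K := fun w => if w ∈ P then g w else p
  have hG1 : ∀ w ∈ P, G w = g w := fun w hw => if_pos hw
  have hG2 : ∀ w, w ∉ P → G w = p := fun w hw => if_neg hw
  have hGp : ∀ w ∈ P, G w ≠ p := fun w hw => by rw [hG1 w hw]; exact h2 hw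
  have hcont : Continuous G := by
    rw [continuous_iff_continuousAt]
    intro w
    by_cases hw : w ∈ P
    · have h7 : ContinuousAt g w := h6.continuousAt (hP.mem_nhds hw)
      have h8 : G =ᶠ[𝓝 w] g := by
        filter_upwards [hP.mem_nhds hw] with v hv
        exact hG1 v hv
      exact h7.congr h8.symm
    · rw [ContinuousAt, hG2 w hw]
      intro W hW
      obtain ⟨W', hW'W, hW', hpW'⟩ := mem_nhds_iff.mp hW
      have hK : IsCompact (W'ᶜ) := hW'.isClosed_compl.isCompact
      have hsub : W'ᶜ ⊆ ({p}ᶜ : Set K) := by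
        intro v hv hvp
        rw [mem_singleton_iff] at hvp
        exact hv (by rw [hvp]; exact hpW')
      have hK2 : IsCompact (f '' W'ᶜ) := hK.image_of_continuousOn (h5.mono hsub)
      have hw' : w ∉ f '' W'ᶜ := by
        rintro ⟨v, hv, hvw⟩
        exact hw (hvw ▸ h1 (hsub hv))
      rw [mem_map]
      filter_upwards [hK2.isClosed.isOpen_compl.mem_nhds hw'] with v hv
      rw [mem_preimage]
      by_cases hvP : v ∈ P
      · rw [hG1 v hvP]
        by_contra hcon
        exact hv ⟨g v, fun hh => hcon (hW'W hh), h4 v hvP⟩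
      · rw [hG2 v hvP]
        exact hW'W hpW'
  refine ⟨⟨G, hcont⟩, ?_, hGp, hG2, ?_⟩
  · intro x
    by_cases hx : x = p
    · obtain ⟨w, hw⟩ := hne
      exact ⟨w, by rw [hx]; exact hG2 w hw⟩
    · refine ⟨f x, ?_⟩
      show G (f x) = x
      rw [hG1 _ (h1 hx)]
      exact h3 x hx
  · intro w w' hww
    change G w = G w' at hww
    by_cases hw : w ∈ P
    · by_cases hw' : w' ∈ P
      · left
        rw [hG1 w hw, hG1 w' hw'] at hww
        rw [← h4 w hw, ← h4 w' hw', hww]
      · rw [hG2 w' hw'] at hww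
        exact absurd hww (hGp w hw)
    · by_cases hw' : w' ∈ P
      · rw [hG2 w hw] at hww
        exact absurd hww.symm (hGp w' hw')
      · exact Or.inr ⟨hw, hw'⟩

/-- functions on `Z` which are constant on the fibres of `G` descend -/
lemma desc [CompactSpace Z] [T2Space K] (G : C(Z, K)) (hG : Function.Surjective G)
    (H : C(L, ℝ) → C(Z, ℝ)) (a : Z → Module.Dual ℝ C(L, ℝ)) (ha : ∀ w, a w ∈ Lc L)
    (hH : ∀ g w, H g w = a w g) (hc : ∀ g w w', G w = G w' → H g w = H g w') :
    ∃ (B : C(L, ℝ) → C(K, ℝ)) (b : K → Module.Dual ℝ C(L, ℝ)), (∀ x, b x ∈ Lc L) ∧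
      (∀ g x, B g x = b x g) ∧ ∀ g w, B g (G w) = H g w := by
  have hq : IsQuotientMap G := G.continuous.isClosedMap.isQuotientMap G.continuous hG
  have hs : ∀ x, G (Function.surjInv hG x) = x := Function.surjInv_eq hG
  refine ⟨fun g => ⟨fun x => H g (Function.surjInv hG x), ?_⟩,
    fun x => a (Function.surjInv hG x), fun x => ha _, fun g x => hH _ _, fun g w => ?_⟩
  · rw [hq.continuous_iff]
    have : ((fun x => H g (Function.surjInv hG x)) ∘ G) = H g := by
      funext w
      exact hc g _ _ (hs (G w))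
    rw [this]
    exact (H g).continuous
  · exact hc g _ _ (hs (G w))

end collapse

end Pool.Agent.H824PC
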