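import Pool.Agent.Helper824_pc.Basic

/-!
Back and forth: open subsets of countable compact spaces with the same rank data are homeomorphic.
-/

namespace Pool.Agent.H824PC

open Topology Filter Set

universe u

section
variable {Y Z : Type u} [TopologicalSpace Y] [TopologicalSpace Z]

/-- `O` and `P` are homeomorphic -/
def Hm (O : Set Y) (P : Set Z) : Prop :=
  ∃ (f : Y → Z) (g : Z → Y), MapsTo f O P ∧ MapsTo g P O ∧ (∀ x ∈ O, g (f x) = x) ∧
    (∀ z ∈ P, f (g z) = z) ∧ ContinuousOn f O ∧ ContinuousOn g P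

lemma Hm.symm {O : Set Y} {P : Set Z} (h : Hm O P) : Hm P O := by
  obtain ⟨f, g, h1, h2, h3, h4, h5, h6⟩ := h
  exact ⟨g, f, h2, h1, h4, h3, h6, h5⟩

lemma hm_empty [Nonempty Y] [Nonempty Z] : Hm (∅ : Set Y) (∅ : Set Z) := by
  refine ⟨fun _ => Classical.arbitrary Z, fun _ => Classical.arbitrary Y, ?_, ?_, ?_, ?_, ?_, ?_⟩
  · exact mapsTo_empty _ _
  · exact mapsTo_empty _ _
  · simp
  · simp
  · exact continuousOn_empty _
  · exact continuousOn_empty _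

/-- gluing of functions along pairwise disjoint open sets -/
lemma glue_fun [Nonempty Z] (C : ℕ → Set Y) (hC : ∀ n, IsOpen (C n))
    (hd : ∀ m n, m ≠ n → Disjoint (C m) (C n)) (f : ℕ → Y → Z)
    (hf : ∀ n, ContinuousOn (f n) (C n)) :
    ∃ F : Y → Z, (∀ n, ∀ x ∈ C n, F x = f n x) ∧ ContinuousOn F (⋃ n, C n) := by
  classical
  let F : Y → Z := fun x => if h : ∃ n, x ∈ C n then f (Nat.find h) x else Classical.arbitrary Z
  have hF : ∀ n, ∀ x ∈ C n, F x = f n x := by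
    intro n x hx
    have h : ∃ n, x ∈ C n := ⟨n, hx⟩
    have h1 : Nat.find h = n := by
      by_contra hne
      exact (Set.disjoint_left.mp (hd _ _ hne)) (Nat.find_spec h) hx
    simp only [F, dif_pos h, h1]
  refine ⟨F, hF, ?_⟩
  intro x hx
  rw [mem_iUnion] at hx
  obtain ⟨n, hn⟩ := hx
  have h1 : ContinuousAt (f n) x := (hf n).continuousAt ((hC n).mem_nhds hn)
  have h2 : F =ᶠ[𝓝 x] f n := by
    filter_upwards [(hC n).mem_nhds hn] with y hy
    exact hF n y hy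
  exact (h1.congr h2.symm).continuousWithinAt

lemma Hm.glue [Nonempty Y] [Nonempty Z] (C : ℕ → Set Y) (E : ℕ → Set Z)
    (hC : ∀ n, IsOpen (C n)) (hE : ∀ n, IsOpen (E n))
    (hCd : ∀ m n, m ≠ n → Disjoint (C m) (C n)) (hEd : ∀ m n, m ≠ n → Disjoint (E m) (E n))
    (h : ∀ n, Hm (C n) (E n)) : Hm (⋃ n, C n) (⋃ n, E n) := by
  choose f g h1 h2 h3 h4 h5 h6 using h
  obtain ⟨F, hF, hFc⟩ := glue_fun C hC hCd f h5
  obtain ⟨G, hG, hGc⟩ := glue_fun E hE hEd g h6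
  refine ⟨F, G, ?_, ?_, ?_, ?_, hFc, hGc⟩
  · intro x hx
    rw [mem_iUnion] at hx ⊢
    obtain ⟨n, hn⟩ := hx
    exact ⟨n, by rw [hF n x hn]; exact h1 n hn⟩
  · intro x hx
    rw [mem_iUnion] at hx ⊢
    obtain ⟨n, hn⟩ := hx
    exact ⟨n, by rw [hG n x hn]; exact h2 n hn⟩
  · intro x hx
    rw [mem_iUnion] at hx
    obtain ⟨n, hn⟩ := hx
    rw [hF n x hn, hG n _ (h1 n hn), h3 n x hn]
  · intro x hx
    rw [mem_iUnion] at hx
    obtain ⟨n, hn⟩ := hx
    rw [hG n x hn, hF n _ (h2 n hn), h4 n x hn]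

/-- one half of the one-point extension -/
lemma ext_cont [T2Space Y] [DecidableEq Y] {C : Set Y} {E : Set Z} {x : Y} {z : Z}
    (hC : IsOpen C) (hxC : x ∈ C) (hE : IsCompact E) {f : Y → Z} {g : Z → Y}
    (h1 : MapsTo f (C \ {x}) (E \ {z})) (h2 : MapsTo g (E \ {z}) (C \ {x}))
    (h3 : ∀ y ∈ C \ {x}, g (f y) = y) (h5 : ContinuousOn f (C \ {x}))
    (h6 : ContinuousOn g (E \ {z})) : ContinuousOn (Function.update f x z) C := by
  intro y hy
  by_cases hyx : y = x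
  · subst hyx
    apply ContinuousAt.continuousWithinAt
    rw [ContinuousAt, Function.update_self]
    intro W hW
    obtain ⟨W', hW'W, hW', hzW'⟩ := mem_nhds_iff.mp hW
    have hK : IsCompact (E \ W') := hE.diff hW'
    have hsub : E \ W' ⊆ E \ {z} := by
      rintro w ⟨hw1, hw2⟩
      refine ⟨hw1, fun h => hw2 ?_⟩
      rw [mem_singleton_iff] at h
      rwa [h]
    have hK2 : IsCompact (g '' (E \ W')) := hK.image_of_continuousOn (h6.mono hsub)
    have hy' : y ∉ g '' (E \ W') := by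
      rintro ⟨w, hw, hwy⟩
      exact (h2 (hsub hw)).2 hwy
    have h7 : (C ∩ (g '' (E \ W'))ᶜ) ∈ 𝓝 y :=
      inter_mem (hC.mem_nhds hxC) (hK2.isClosed.isOpen_compl.mem_nhds hy')
    rw [mem_map]
    filter_upwards [h7] with v hv
    by_cases hvy : v = y
    · subst hvy
      rw [mem_preimage, Function.update_self]
      exact hW'W hzW'
    · rw [mem_preimage, Function.update_of_ne hvy]
      have hvC : v ∈ C \ {y} := ⟨hv.1, hvy⟩
      by_contra hcon
      apply hv.2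
      refine ⟨f v, ⟨(h1 hvC).1, fun hh => hcon (hW'W hh)⟩, h3 v hvC⟩
  · have hyC : y ∈ C \ {x} := ⟨hy, hyx⟩
    have hopen : IsOpen (C \ {x}) := hC.sdiff isClosed_singleton
    have h7 : ContinuousAt f y := h5.continuousAt (hopen.mem_nhds hyC)
    have h8 : Function.update f x z =ᶠ[𝓝 y] f := by
      filter_upwards [hopen.mem_nhds hyC] with w hw
      exact Function.update_of_ne hw.2 _ _
    exact (h7.congr h8.symm).continuousWithinAt

lemma Hm.ext [T2Space Y] [T2Space Z] {C : Set Y} {E : Set Z} {x : Y} {z : Z}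
    (hC : IsOpen C) (hC' : IsCompact C) (hE : IsOpen E) (hE' : IsCompact E)
    (hx : x ∈ C) (hz : z ∈ E) (h : Hm (C \ {x}) (E \ {z})) :
    ∃ (f : Y → Z) (g : Z → Y), MapsTo f C E ∧ MapsTo g E C ∧ (∀ x ∈ C, g (f x) = x) ∧
    (∀ z ∈ E, f (g z) = z) ∧ ContinuousOn f C ∧ ContinuousOn g E ∧ f x = z ∧ g z = x := by
  classical
  obtain ⟨f, g, h1, h2, h3, h4, h5, h6⟩ := h
  refine ⟨Function.update f x z, Function.update g z x, ?_, ?_, ?_, ?_,
    ext_cont hC hx hE' h1 h2 h3 h5 h6, ext_cont hE hz hC' h2 h1 h4 h6 h5,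
    Function.update_self .., Function.update_self ..⟩
  · intro y hy
    by_cases hyx : y = x
    · subst hyx
      rwa [Function.update_self]
    · rw [Function.update_of_ne hyx]
      exact (h1 ⟨hy, hyx⟩).1
  · intro y hy
    by_cases hyx : y = z
    · subst hyx
      rwa [Function.update_self]
    · rw [Function.update_of_ne hyx]
      exact (h2 ⟨hy, hyx⟩).1
  · intro y hy
    by_cases hyx : y = x
    · subst hyx
      rw [Function.update_self, Function.update_self]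
    · rw [Function.update_of_ne hyx, Function.update_of_ne (h1 ⟨hy, hyx⟩).2]
      exact h3 y ⟨hy, hyx⟩
  · intro y hy
    by_cases hyx : y = z
    · subst hyx
      rw [Function.update_self, Function.update_self]
    · rw [Function.update_of_ne hyx, Function.update_of_ne (h2 ⟨hy, hyx⟩).2]
      exact h4 y ⟨hy, hyx⟩

lemma Hm.ext' [T2Space Y] [T2Space Z] {C : Set Y} {E : Set Z} {x : Y} {z : Z}
    (hC : IsOpen C) (hC' : IsCompact C) (hE : IsOpen E) (hE' : IsCompact E)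
    (hx : x ∈ C) (hz : z ∈ E) (h : Hm (C \ {x}) (E \ {z})) : Hm C E := by
  obtain ⟨f, g, h1, h2, h3, h4, h5, h6, -, -⟩ := Hm.ext hC hC' hE hE' hx hz h
  exact ⟨f, g, h1, h2, h3, h4, h5, h6⟩

/-- rank data of an open set -/
def Good (ρ : Y → Ordinal.{u}) (γ : Ordinal.{u}) (O : Set Y) : Prop :=
  IsOpen O ∧ (∀ x ∈ O, ρ x < γ) ∧ ∀ C, IsClosed C → C ⊆ O → ∀ ζ < γ, ∃ x ∈ O \ C, ρ x = ζ

lemma good_pt {ρ : Y → Ordinal.{u}} [T1Space Y] (h2 : R2 ρ) {C : Set Y} {x : Y} (hC : IsOpen C)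
    (hx : x ∈ C) (h : ∀ y ∈ C, y ≠ x → ρ y < ρ x) : Good ρ (ρ x) (C \ {x}) := by
  refine ⟨hC.sdiff isClosed_singleton, fun y hy => h y hy.1 hy.2, ?_⟩
  intro K hK hKC ζ hζ
  have hV : C ∩ Kᶜ ∈ 𝓝 x :=
    inter_mem (hC.mem_nhds hx) (hK.isOpen_compl.mem_nhds (fun hh => (hKC hh).2 rfl))
  obtain ⟨y, hy, hyζ⟩ := h2 x ζ hζ _ hV
  refine ⟨y, ⟨⟨hy.1, ?_⟩, hy.2⟩, hyζ⟩
  rintro rfl
  exact absurd hζ (by rw [hyζ]; exact lt_irrefl _)

lemma exists_nb [CompactSpace Y] [T2Space Y] [Countable Y] {ρ : Y → Ordinal.{u}} (h1 : R1 ρ)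
    {x : Y} {U : Set Y} (hU : IsOpen U) (hx : x ∈ U) :
    ∃ C, IsClopen C ∧ x ∈ C ∧ C ⊆ U ∧ ∀ y ∈ C, y ≠ x → ρ y < ρ x := by
  obtain ⟨W, hW, hWo, hxW⟩ := mem_nhds_iff.mp (inter_mem (hU.mem_nhds hx) (h1.nhds x))
  obtain ⟨C, hC, hxC, hCW⟩ := compact_exists_isClopen_in_isOpen hWo hxW
  exact ⟨C, hC, hxC, fun y hy => (hW (hCW hy)).1, fun y hy => (hW (hCW hy)).2⟩

/-- **Uniqueness theorem.** -/
theorem uniq [CompactSpace Y] [T2Space Y] [Countable Y] [Nonempty Y]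
    [CompactSpace Z] [T2Space Z] [Countable Z] [Nonempty Z]
    {ρ : Y → Ordinal.{u}} {σ : Z → Ordinal.{u}} (hρ1 : R1 ρ) (hρ2 : R2 ρ) (hσ1 : R1 σ)
    (hσ2 : R2 σ) (γ : Ordinal.{u}) :
    ∀ (O : Set Y) (P : Set Z), Good ρ γ O → Good σ γ P → Hm O P := by
  induction γ using WellFoundedLT.induction with
  | ind γ ih =>
  intro O P hO hP
  by_cases hγ : γ = 0
  · subst hγ
    have h1 : O = ∅ := by
      rw [eq_empty_iff_forall_notMem]
      intro x hx
      exact absurd (hO.2.1 x hx) not_lt_zero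
    have h2 : P = ∅ := by
      rw [eq_empty_iff_forall_notMem]
      intro x hx
      exact absurd (hP.2.1 x hx) not_lt_zero
    rw [h1, h2]
    exact hm_empty
  have hγ0 : 0 < γ := pos_iff_ne_zero.mpr hγ
  -- pieces
  have piece : ∀ (U : Set Y) (V : Set Z), IsClopen U → IsClopen V → ∀ x ∈ O \ U, ∀ z ∈ P \ V,
      ρ x = σ z → ∃ (C : Set Y) (E : Set Z), IsClopen C ∧ IsClopen E ∧ x ∈ C ∧ z ∈ E ∧
        C ⊆ O \ U ∧ E ⊆ P \ V ∧ Hm C E := by
    intro U V hU hV x hx z hz hxz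
    obtain ⟨C, hC, hxC, hCU, hCρ⟩ := exists_nb hρ1 (hO.1.sdiff hU.isClosed) hx
    obtain ⟨E, hE, hzE, hEV, hEσ⟩ := exists_nb hσ1 (hP.1.sdiff hV.isClosed) hz
    refine ⟨C, E, hC, hE, hxC, hzE, hCU, hEV, ?_⟩
    apply Hm.ext' hC.isOpen hC.isClosed.isCompact hE.isOpen hE.isClosed.isCompact hxC hzE
    apply ih (ρ x) (hO.2.1 x hx.1) _ _ (good_pt hρ2 hC.isOpen hxC hCρ)
    rw [hxz]
    exact good_pt hσ2 hE.isOpen hzE hEσ
  -- states
  let St := {s : Set Y × Set Z // IsClopen s.1 ∧ IsClopen s.2 ∧ s.1 ⊆ O ∧ s.2 ⊆ P}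
  let cov : Y ⊕ Z → St → Prop := fun w s => Sum.elim (fun x => x ∈ s.1.1) (fun z => z ∈ s.1.2) w
  let tgt : Set (Y ⊕ Z) := {w | Sum.elim (fun x => x ∈ O) (fun z => z ∈ P) w}
  have step : ∀ w ∈ tgt, ∀ s : St, ∃ s' : St, s.1.1 ⊆ s'.1.1 ∧ s.1.2 ⊆ s'.1.2 ∧
      Hm (s'.1.1 \ s.1.1) (s'.1.2 \ s.1.2) ∧ cov w s' := by
    have main : ∀ s : St, ∀ x ∈ O \ s.1.1, ∀ z ∈ P \ s.1.2, ρ x = σ z →
        ∃ s' : St, s.1.1 ⊆ s'.1.1 ∧ s.1.2 ⊆ s'.1.2 ∧
          Hm (s'.1.1 \ s.1.1) (s'.1.2 \ s.1.2) ∧ x ∈ s'.1.1 ∧ z ∈ s'.1.2 := by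
      intro s x hx z hz hxz
      obtain ⟨C, E, hC, hE, hxC, hzE, hCU, hEV, hCE⟩ :=
        piece s.1.1 s.1.2 s.2.1 s.2.2.1 x hx z hz hxz
      refine ⟨⟨(s.1.1 ∪ C, s.1.2 ∪ E), s.2.1.union hC, s.2.2.1.union hE,
        union_subset s.2.2.2.1 (fun y hy => (hCU hy).1),
        union_subset s.2.2.2.2 (fun y hy => (hEV hy).1)⟩, subset_union_left, subset_union_left,
        ?_, Or.inr hxC, Or.inr hzE⟩
      have e1 : (s.1.1 ∪ C) \ s.1.1 = C := by
        ext y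
        constructor
        · rintro ⟨h | h, h'⟩
          · exact absurd h h'
          · exact h
        · exact fun h => ⟨Or.inr h, (hCU h).2⟩
      have e2 : (s.1.2 ∪ E) \ s.1.2 = E := by
        ext y
        constructor
        · rintro ⟨h | h, h'⟩
          · exact absurd h h'
          · exact h
        · exact fun h => ⟨Or.inr h, (hEV h).2⟩
      show Hm ((s.1.1 ∪ C) \ s.1.1) ((s.1.2 ∪ E) \ s.1.2)
      rw [e1, e2]
      exact hCE
    have triv : ∀ s : St, Hm (s.1.1 \ s.1.1) (s.1.2 \ s.1.2) := by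
      intro s
      rw [sdiff_self, sdiff_self]
      exact hm_empty
    intro w hw s
    rcases w with x | z
    · have hxO : x ∈ O := hw
      by_cases hx : x ∈ s.1.1
      · exact ⟨s, Subset.rfl, Subset.rfl, triv s, hx⟩
      · obtain ⟨z, hz, hzx⟩ := hP.2.2 s.1.2 s.2.2.1.isClosed s.2.2.2.2 (ρ x) (hO.2.1 x hxO)
        obtain ⟨s', h1, h2, h3, h4, h5⟩ := main s x ⟨hxO, hx⟩ z hz hzx.symm
        exact ⟨s', h1, h2, h3, h4⟩
    · have hzP : z ∈ P := hw
      by_cases hz : z ∈ s.1.2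
      · exact ⟨s, Subset.rfl, Subset.rfl, triv s, hz⟩
      · obtain ⟨x, hx, hxz⟩ := hO.2.2 s.1.1 s.2.1.isClosed s.2.2.2.1 (σ z) (hP.2.1 z hzP)
        obtain ⟨s', h1, h2, h3, h4, h5⟩ := main s x hx z ⟨hzP, hz⟩ hxz
        exact ⟨s', h1, h2, h3, h5⟩
  -- enumeration
  have hne : tgt.Nonempty := by
    obtain ⟨x, hx, -⟩ := hO.2.2 ∅ isClosed_empty (empty_subset _) 0 hγ0
    exact ⟨Sum.inl x, hx.1⟩
  obtain ⟨e, he⟩ := (Set.to_countable tgt).exists_eq_range hne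
  have hemem : ∀ n, e n ∈ tgt := fun n => by rw [he]; exact mem_range_self n
  choose nxt hn1 hn2 hn3 hn4 using fun n s => step (e n) (hemem n) s
  let s0 : St := ⟨(∅, ∅), isClopen_empty, isClopen_empty, empty_subset _, empty_subset _⟩
  let S : ℕ → St := fun n => Nat.rec s0 (fun n s => nxt n s) n
  have hS0 : S 0 = s0 := rfl
  have hSs : ∀ n, S (n + 1) = nxt n (S n) := fun n => rfl
  have mono1 : Monotone (fun n => (S n).1.1) := monotone_nat_of_le_succ fun n => by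
    show (S n).1.1 ⊆ (S (n + 1)).1.1
    rw [hSs]; exact hn1 _ _
  have mono2 : Monotone (fun n => (S n).1.2) := monotone_nat_of_le_succ fun n => by
    show (S n).1.2 ⊆ (S (n + 1)).1.2
    rw [hSs]; exact hn2 _ _
  have hdis : ∀ {W : Type u} (A : ℕ → Set W), Monotone A → ∀ m n, m ≠ n →
      Disjoint (A (m + 1) \ A m) (A (n + 1) \ A n) := by
    intro W A hA
    have aux : ∀ m n, m < n → Disjoint (A (m + 1) \ A m) (A (n + 1) \ A n) := by
      intro m n hmn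
      rw [Set.disjoint_left]
      rintro y ⟨hy1, -⟩ ⟨-, hy2⟩
      exact hy2 (hA (Nat.succ_le_of_lt hmn) hy1)
    intro m n hmn
    rcases lt_or_gt_of_ne hmn with h | h
    · exact aux m n h
    · exact (aux n m h).symm
  have hun : ∀ {W : Type u} (A : ℕ → Set W) (B : Set W), A 0 = ∅ → (∀ n, A n ⊆ B) →
      (∀ x ∈ B, ∃ n, x ∈ A n) → ⋃ n, (A (n + 1) \ A n) = B := by
    classical
    intro W A B hA0 hAB hBA
    apply Subset.antisymm
    · exact iUnion_subset fun n x hx => hAB (n + 1) hx.1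
    · intro x hx
      rw [mem_iUnion]
      have hex := hBA x hx
      have hspec := Nat.find_spec hex
      have hpos : Nat.find hex ≠ 0 := by
        intro h
        rw [h, hA0] at hspec
        exact hspec
      obtain ⟨k, hk⟩ := Nat.exists_eq_succ_of_ne_zero hpos
      refine ⟨k, ?_, ?_⟩
      · rw [hk] at hspec
        exact hspec
      · exact Nat.find_min hex (by omega)
  have u1 : ⋃ n, ((S (n + 1)).1.1 \ (S n).1.1) = O := by
    apply hun (fun n => (S n).1.1) O rfl (fun n => (S n).2.2.2.1)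
    intro x hx
    have : (Sum.inl x : Y ⊕ Z) ∈ tgt := hx
    rw [he] at this
    obtain ⟨n, hn⟩ := this
    refine ⟨n + 1, ?_⟩
    have h := hn4 n (S n)
    rw [hn] at h
    exact h
  have u2 : ⋃ n, ((S (n + 1)).1.2 \ (S n).1.2) = P := by
    apply hun (fun n => (S n).1.2) P rfl (fun n => (S n).2.2.2.2)
    intro x hx
    have : (Sum.inr x : Y ⊕ Z) ∈ tgt := hx
    rw [he] at this
    obtain ⟨n, hn⟩ := this
    refine ⟨n + 1, ?_⟩
    have h := hn4 n (S n)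
    rw [hn] at h
    exact h
  have hfin := Hm.glue (fun n => (S (n + 1)).1.1 \ (S n).1.1) (fun n => (S (n + 1)).1.2 \ (S n).1.2)
    (fun n => (S (n + 1)).2.1.isOpen.sdiff (S n).2.1.isClosed)
    (fun n => (S (n + 1)).2.2.1.isOpen.sdiff (S n).2.2.1.isClosed)
    (hdis _ mono1) (hdis _ mono2) (fun n => by rw [hSs]; exact hn3 n (S n))
  rw [u1, u2] at hfin
  exact hfin

end

end Pool.Agent.H824PC
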